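import Mathlib

/-!
The quantities `λ(C,L)`, `δ(C,L)`, `k(C,L)` of the problem, for the lattice `L = B ℤ^d`.
-/

set_option autoImplicit false

namespace Pool.Agent.P.MP_73fc50_co.G

variable {d : ℕ}

/-- The lattice `B ℤ^d`. -/
def lattice (B : Matrix (Fin d) (Fin d) ℝ) : Set (Fin d → ℝ) :=
  {l | ∃ z : Fin d → ℤ, l = B.mulVec (fun i => (z i : ℝ))}

/-- `λ(C,L)`: the least gauge of a nonzero lattice point. -/
noncomputable def lam (C : Set (Fin d → ℝ)) (B : Matrix (Fin d) (Fin d) ℝ) : ℝ :=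
  sInf (gauge C '' (lattice B \ {0}))

/-- `δ(C,L) = λ(C,L)^d V(C) / (2^d d(L))`. -/
noncomputable def dens (C : Set (Fin d → ℝ)) (B : Matrix (Fin d) (Fin d) ℝ) : ℝ :=
  lam C B ^ d * (MeasureTheory.volume C).toReal / (2 ^ d * |B.det|)

/-- `k(C,L)`: the number of lattice points of gauge `λ(C,L)`. -/
noncomputable def kiss (C : Set (Fin d → ℝ)) (B : Matrix (Fin d) (Fin d) ℝ) : ℕ :=
  {l ∈ lattice B | gauge C l = lam C B}.ncard

/-- `B ℤ^d` is a lattice giving a lattice packing of `C` of maximum density among all lattices. -/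
def IsDensest (C : Set (Fin d → ℝ)) (B : Matrix (Fin d) (Fin d) ℝ) : Prop :=
  B.det ≠ 0 ∧ ∀ B' : Matrix (Fin d) (Fin d) ℝ, B'.det ≠ 0 → dens C B' ≤ dens C B

end Pool.Agent.P.MP_73fc50_co.G
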