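import Mathlib
import Pool.Agent.P.MP_73fc50_co.Local

/-!
The range norm `N` (its unit ball is the Voronoi cell of the root lattice `A_d = ℤ^d`), and the
auxiliary seminorm `N3` used to shave that cell.
-/

set_option autoImplicit false

open Set Metric Topology Matrix Finset Filter

namespace Pool.Agent.P.MP_73fc50_co.G

variable {d : ℕ}

/-- Integer vectors as real vectors. -/
abbrev cz (z : Fin d → ℤ) : Fin d → ℝ := fun i => (z i : ℝ)

/-- Coordinates in the hyperplane `∑ = 0` of `ℝ^(d+1)`. -/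
def W : (Fin d → ℝ) →ₗ[ℝ] (Option (Fin d) → ℝ) where
  toFun x a := a.elim (-∑ i, x i) x
  map_add' x y := by
    funext a; cases a
    · simp [Finset.sum_add_distrib]; ring
    · simp
  map_smul' c x := by
    funext a; cases a
    · simp [Finset.mul_sum]
    · simp

@[simp] theorem W_none (x : Fin d → ℝ) : W x none = -∑ i, x i := rfl
@[simp] theorem W_some (x : Fin d → ℝ) (i : Fin d) : W x (some i) = x i := rfl

theorem sum_W (x : Fin d → ℝ) : ∑ a, W x a = 0 := by simp [Fintype.sum_option]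

theorem Q_eq_sum (x : Fin d → ℝ) : Q x = ∑ a, W x a ^ 2 := by
  simp only [Fintype.sum_option, W_none, W_some, Q]; ring

theorem abs_W_le (x : Fin d → ℝ) (a : Option (Fin d)) : |W x a| ≤ (d + 1) * ‖x‖ := by
  have h0 : 0 ≤ ‖x‖ := norm_nonneg x
  have hd : (0 : ℝ) ≤ d := by positivity
  cases a with
  | none =>
    rw [W_none, abs_neg]
    calc |∑ i, x i| ≤ ∑ i, |x i| := Finset.abs_sum_le_sum_abs _ _
      _ ≤ ∑ _i : Fin d, ‖x‖ := Finset.sum_le_sum fun i _ => norm_le_pi_norm x i
      _ = d * ‖x‖ := by simp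
      _ ≤ (d + 1) * ‖x‖ := by nlinarith
  | some i =>
    rw [W_some]
    have : |x i| ≤ ‖x‖ := norm_le_pi_norm x i
    nlinarith

/-- All coordinate differences. -/
def D : (Fin d → ℝ) →ₗ[ℝ] (Option (Fin d) × Option (Fin d) → ℝ) where
  toFun x p := W x p.1 - W x p.2
  map_add' x y := by funext p; simp; ring
  map_smul' c x := by funext p; simp; ring

/-- The combinations `w a + w a' - 2 w b` with `a ≠ a'`. -/
def D3 : (Fin d → ℝ) →ₗ[ℝ] (Option (Fin d) × Option (Fin d) × Option (Fin d) → ℝ) where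
  toFun x p := if p.1 = p.2.1 then 0 else W x p.1 + W x p.2.1 - 2 * W x p.2.2
  map_add' x y := by funext p; by_cases h : p.1 = p.2.1 <;> simp [h]; ring
  map_smul' c x := by funext p; by_cases h : p.1 = p.2.1 <;> simp [h]; ring

/-- The range norm. -/
noncomputable def N : Seminorm ℝ (Fin d → ℝ) := (normSeminorm ℝ _).comp D

/-- The shaving seminorm. -/
noncomputable def N3 : Seminorm ℝ (Fin d → ℝ) := (normSeminorm ℝ _).comp D3

theorem N_apply (x : Fin d → ℝ) : N x = ‖D x‖ := rfl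
theorem N3_apply (x : Fin d → ℝ) : N3 x = ‖D3 x‖ := rfl

theorem N_nonneg (x : Fin d → ℝ) : 0 ≤ N x := norm_nonneg (D x)
theorem N3_nonneg (x : Fin d → ℝ) : 0 ≤ N3 x := norm_nonneg (D3 x)

theorem continuous_N : Continuous (N : (Fin d → ℝ) → ℝ) :=
  (D (d := d)).continuous_of_finiteDimensional.norm

theorem continuous_N3 : Continuous (N3 : (Fin d → ℝ) → ℝ) :=
  (D3 (d := d)).continuous_of_finiteDimensional.norm

theorem abs_sub_le_N (x : Fin d → ℝ) (a b : Option (Fin d)) : |W x a - W x b| ≤ N x :=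
  norm_le_pi_norm (D x) (a, b)

theorem sub_le_N (x : Fin d → ℝ) (a b : Option (Fin d)) : W x a - W x b ≤ N x :=
  (le_abs_self _).trans (abs_sub_le_N x a b)

theorem N_le {x : Fin d → ℝ} {c : ℝ} (h : ∀ a b, W x a - W x b ≤ c) : N x ≤ c := by
  have hc : 0 ≤ c := by simpa using h none none
  rw [N_apply, pi_norm_le_iff_of_nonneg hc]
  intro p
  rw [Real.norm_eq_abs, abs_le]
  refine ⟨?_, h p.1 p.2⟩
  have := h p.2 p.1
  change -c ≤ W x p.1 - W x p.2
  linarith

theorem N_lt {x : Fin d → ℝ} {c : ℝ} (h : ∀ a b, W x a - W x b < c) : N x < c := by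
  have hc : 0 < c := by simpa using h none none
  rw [N_apply, pi_norm_lt_iff hc]
  intro p
  rw [Real.norm_eq_abs, abs_lt]
  refine ⟨?_, h p.1 p.2⟩
  have := h p.2 p.1
  change -c < W x p.1 - W x p.2
  linarith

theorem exists_of_le_N {x : Fin d → ℝ} {c : ℝ} (h : c ≤ N x) : ∃ a b, c ≤ W x a - W x b := by
  by_contra hc
  push Not at hc
  exact absurd (N_lt hc) (not_lt.2 h)

theorem abs_W_le_N (x : Fin d → ℝ) (a : Option (Fin d)) : |W x a| ≤ N x := by
  have h1 : ((d : ℝ) + 1) * W x a = ∑ b, (W x a - W x b) := by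
    rw [Finset.sum_sub_distrib, sum_W]; simp
  have h2 : |∑ b, (W x a - W x b)| ≤ ((d : ℝ) + 1) * N x := by
    calc _ ≤ ∑ b, |W x a - W x b| := Finset.abs_sum_le_sum_abs _ _
      _ ≤ ∑ _b : Option (Fin d), N x := Finset.sum_le_sum fun b _ => abs_sub_le_N x a b
      _ = _ := by simp
  rw [← h1, abs_mul, abs_of_pos (by positivity)] at h2
  exact le_of_mul_le_mul_left h2 (by positivity)

theorem norm_le_N (x : Fin d → ℝ) : ‖x‖ ≤ N x := by
  rw [pi_norm_le_iff_of_nonneg (N_nonneg x)]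
  intro i
  exact abs_W_le_N x (some i)

theorem N_le_norm (x : Fin d → ℝ) : N x ≤ 2 * (d + 1) * ‖x‖ := by
  apply N_le
  intro a b
  have h1 := abs_le.1 (abs_W_le x a)
  have h2 := abs_le.1 (abs_W_le x b)
  linarith [h1.2, h2.1]

theorem abs_le_N3 (x : Fin d → ℝ) {a a' : Option (Fin d)} (h : a ≠ a') (b : Option (Fin d)) :
    |W x a + W x a' - 2 * W x b| ≤ N3 x := by
  have := norm_le_pi_norm (D3 x) (a, a', b)
  rw [N3_apply]
  refine le_trans (le_of_eq ?_) this
  simp [D3, h]

theorem N3_le {x : Fin d → ℝ} {c : ℝ} (hc : 0 ≤ c)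
    (h : ∀ a a' b, a ≠ a' → |W x a + W x a' - 2 * W x b| ≤ c) : N3 x ≤ c := by
  rw [N3_apply, pi_norm_le_iff_of_nonneg hc]
  intro p
  by_cases hp : p.1 = p.2.1
  · simp [D3, hp, hc]
  · simpa [D3, hp] using h _ _ p.2.2 hp

theorem N3_le_N (x : Fin d → ℝ) : N3 x ≤ 2 * N x := by
  apply N3_le (by have := N_nonneg x; linarith)
  intro a a' b _
  have h1 := abs_le.1 (abs_sub_le_N x a b)
  have h2 := abs_le.1 (abs_sub_le_N x a' b)
  rw [abs_le]
  constructor <;> linarith [h1.1, h1.2, h2.1, h2.2]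

/-- Integer version of `W`. -/
def Wz (z : Fin d → ℤ) (a : Option (Fin d)) : ℤ := a.elim (-∑ i, z i) z

theorem W_cz (z : Fin d → ℤ) (a : Option (Fin d)) : W (cz z) a = Wz z a := by
  cases a <;> simp [Wz]

theorem exists_pos_neg {z : Fin d → ℤ} (hz : z ≠ 0) : ∃ a b, 0 < Wz z a ∧ Wz z b < 0 := by
  have hsum : ∑ a, Wz z a = 0 := by simp [Wz, Fintype.sum_option]
  obtain ⟨i, hi⟩ := Function.ne_iff.1 hz
  have h0 : Wz z (some i) ≠ 0 := hi
  have hpos : ∃ a, 0 < Wz z a := by
    by_contra h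
    push Not at h
    exact h0 ((Finset.sum_eq_zero_iff_of_nonpos (fun a _ => h a)).1 hsum _ (Finset.mem_univ _))
  have hneg : ∃ a, Wz z a < 0 := by
    by_contra h
    push Not at h
    exact h0 ((Finset.sum_eq_zero_iff_of_nonneg (fun a _ => h a)).1 hsum _ (Finset.mem_univ _))
  obtain ⟨a, ha⟩ := hpos
  obtain ⟨b, hb⟩ := hneg
  exact ⟨a, b, ha, hb⟩

theorem two_le_N {z : Fin d → ℤ} (hz : z ≠ 0) : 2 ≤ N (cz z) := by
  obtain ⟨a, b, ha, hb⟩ := exists_pos_neg hz
  refine le_trans ?_ (sub_le_N (cz z) a b)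
  rw [W_cz, W_cz]
  have : (2 : ℤ) ≤ Wz z a - Wz z b := by omega
  exact_mod_cast this

theorem W_root (p : Option (Fin d) × Option (Fin d)) (a : Option (Fin d)) :
    W (cz (root p)) a = (if a = p.1 then 1 else 0) - (if a = p.2 then 1 else 0) := by
  obtain ⟨p1, p2⟩ := p
  cases a with
  | some i => simp [root, cz]
  | none =>
    cases p1 <;> cases p2 <;> simp [root, cz, Finset.sum_sub_distrib]

theorem root_ne_zero {a b : Option (Fin d)} (h : a ≠ b) : root (a, b) ≠ 0 := by
  intro h0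
  have := W_root (a, b) a
  rw [h0] at this
  have h1 : cz (0 : Fin d → ℤ) = 0 := by funext i; simp
  rw [h1, map_zero] at this
  simp [h] at this

theorem root_swap (a b : Option (Fin d)) : root (b, a) = -root (a, b) := by
  funext i; simp [root]

theorem N3_root (p : Option (Fin d) × Option (Fin d)) : N3 (cz (root p)) ≤ 3 := by
  apply N3_le (by norm_num)
  intro a a' b h
  simp only [W_root]
  rw [abs_le]
  constructor <;> split_ifs <;> simp_all <;> norm_num

theorem norm_root (p : Option (Fin d) × Option (Fin d)) : ‖cz (root p)‖ ≤ 1 := by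
  rw [pi_norm_le_iff_of_nonneg (by norm_num)]
  intro i
  simp only [root, cz]
  split_ifs <;> simp

/-- The only nonzero lattice vectors near the shaved cell are the roots. -/
theorem eq_root {z : Fin d → ℤ} (hz : z ≠ 0) (h1 : N (cz z) < 3) (h2 : N3 (cz z) < 4) :
    ∃ a b, a ≠ b ∧ z = root (a, b) := by
  obtain ⟨a, b, ha, hb⟩ := exists_pos_neg hz
  have hab : a ≠ b := by rintro rfl; omega
  have h3 : Wz z a - Wz z b < 3 := by
    have := (sub_le_N (cz z) a b).trans_lt h1
    rw [W_cz, W_cz] at this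
    exact_mod_cast this
  have ha1 : Wz z a = 1 := by omega
  have hb1 : Wz z b = -1 := by omega
  have hc : ∀ c, c ≠ a → c ≠ b → Wz z c = 0 := by
    intro c hca hcb
    have h4 : |Wz z c + Wz z a - 2 * Wz z b| < 4 := by
      have := (abs_le_N3 (cz z) hca b).trans_lt h2
      simp only [W_cz] at this
      exact_mod_cast this
    have h5 : |Wz z c + Wz z b - 2 * Wz z a| < 4 := by
      have := (abs_le_N3 (cz z) hcb a).trans_lt h2
      simp only [W_cz] at this
      exact_mod_cast this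
    rw [abs_lt] at h4 h5
    omega
  refine ⟨a, b, hab, funext fun i => ?_⟩
  change Wz z (some i) = _
  simp only [root]
  by_cases h1 : some i = a
  · simp [h1, ha1, hab]
  · by_cases h2 : some i = b
    · simp [h2, hb1, hab.symm]
    · simp [h1, h2, hc _ h1 h2]

end Pool.Agent.P.MP_73fc50_co.G
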