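import Mathlib
import Pool.Agent.P.MP_73fc50_co.G.Norms

/-!
A group of translations by which the Voronoi cell `{N ≤ 1}` of `A_d` tiles space contains the
basis vectors of `A_d = ℤ^d`; a group that nearly tiles contains vectors near them.
-/

set_option autoImplicit false

open Set Metric Topology Matrix Filter

namespace Pool.Agent.P.MP_73fc50_co.G

variable {d : ℕ}

/-- The vector whose coordinates `W` are those of `u` up to a constant. -/
noncomputable def lift (u : Option (Fin d) → ℝ) : Fin d → ℝ :=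
  fun i => u (some i) - (∑ a, u a) / (d + 1)

theorem W_lift (u : Option (Fin d) → ℝ) (a : Option (Fin d)) :
    W (lift u) a = u a - (∑ a, u a) / (d + 1) := by
  cases a with
  | some i => rfl
  | none =>
    have h : (d : ℝ) + 1 ≠ 0 := by positivity
    simp only [W_none, lift, Finset.sum_sub_distrib, Finset.sum_const, Finset.card_univ,
      Fintype.card_fin, nsmul_eq_mul, Fintype.sum_option]
    field_simp
    ring

theorem W_lift_sub (u : Option (Fin d) → ℝ) (a b : Option (Fin d)) :
    W (lift u) a - W (lift u) b = u a - u b := by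
  rw [W_lift, W_lift]; ring

/-- The vertex of the cell used in the argument. -/
noncomputable def vtx (d : ℕ) : Fin d → ℝ := lift fun a => if a = none then 1 else 0

theorem vtx_sub (a b : Option (Fin d)) :
    W (vtx d) a - W (vtx d) b = (if a = none then 1 else 0) - (if b = none then 1 else 0) :=
  W_lift_sub _ a b

theorem finite_le (Γ : AddSubgroup (Fin d → ℝ)) (hP : ∀ g ∈ Γ, g ≠ 0 → 2 ≤ N g) (R : ℝ) :
    {g : Fin d → ℝ | g ∈ Γ ∧ N g ≤ R}.Finite := by
  have : DiscreteTopology Γ := by
    apply discreteTopology_of_isOpen_singleton_zero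
    have h : ({0} : Set Γ) = (fun g : Γ => N (g : Fin d → ℝ)) ⁻¹' Iio 2 := by
      ext g
      simp only [mem_singleton_iff, mem_preimage, mem_Iio]
      constructor
      · rintro rfl; simp
      · intro h
        by_contra hg
        exact absurd (hP g g.2 (fun h0 => hg (Subtype.ext h0))) (not_le.2 h)
    rw [h]
    exact isOpen_Iio.preimage (continuous_N.comp continuous_subtype_val)
  have h1 := Metric.finite_isBounded_inter_isClosed (K := closedBall (0 : Fin d → ℝ) R)
    (s := (Γ : Set (Fin d → ℝ))) DiscreteTopology.isDiscrete isBounded_closedBall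
    AddSubgroup.isClosed_of_discrete
  refine h1.subset fun g hg => ⟨?_, hg.1⟩
  rw [mem_closedBall_zero_iff]
  exact (norm_le_N g).trans hg.2

theorem exists_top (Γ : AddSubgroup (Fin d → ℝ)) (hP : ∀ g ∈ Γ, g ≠ 0 → 2 ≤ N g)
    (hC : ∀ y, ∃ g ∈ Γ, N (y - g) ≤ 1) (k : Fin d) :
    ∃ g ∈ Γ, N (vtx d - g) ≤ 1 ∧ W (vtx d - g) (some k) - W (vtx d - g) none = 1 ∧
      ∀ j, 1 ≤ W (vtx d - g) j - W (vtx d - g) none → j = some k := by
  set x : Fin d → ℝ := lift fun a => if a = none then -1 else if a = some k then -2 else 0 with hx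
  have hxW : ∀ a b, W x a - W x b = (if a = none then -1 else if a = some k then -2 else 0) -
      (if b = none then -1 else if b = some k then -2 else 0) := fun a b => W_lift_sub _ a b
  set R : ℝ := N (vtx d) + N x + 1
  have hfin := finite_le Γ hP R
  have hev : ∀ᶠ t in 𝓝 (0 : ℝ), ∀ g ∈ {g : Fin d → ℝ | g ∈ Γ ∧ N g ≤ R},
      1 < N (vtx d - g) → 1 < N (vtx d + t • x - g) := by
    rw [eventually_all_finite hfin]
    intro g _
    by_cases h : 1 < N (vtx d - g)
    · have hc : Continuous fun t : ℝ => N (vtx d + t • x - g) := continuous_N.comp (by fun_prop)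
      have := continuousAt_const.eventually_lt (hc.continuousAt (x := 0)) (by simpa using h)
      exact this.mono fun t ht _ => ht
    · exact Eventually.of_forall fun t h' => absurd h' h
  have hpos : ∀ᶠ t in 𝓝[>] (0 : ℝ), 0 < t := self_mem_nhdsWithin
  have hev2 := hpos.and
      (Eventually.filter_mono nhdsWithin_le_nhds ((eventually_lt_nhds one_pos).and hev))
  obtain ⟨t, ht0, ht1, ht⟩ := hev2.exists
  obtain ⟨g, hg, hgN⟩ := hC (vtx d + t • x)
  have hgR : N g ≤ R := by
    have h1 : g = (vtx d + t • x) - (vtx d + t • x - g) := by abel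
    have h2 : N (t • x) ≤ N x := by
      rw [map_smul_eq_mul, Real.norm_of_nonneg ht0.le]
      nlinarith [N_nonneg x]
    calc N g = N ((vtx d + t • x) - (vtx d + t • x - g)) := by rw [← h1]
      _ ≤ N (vtx d + t • x) + N (vtx d + t • x - g) := map_sub_le_add _ _ _
      _ ≤ N (vtx d) + N (t • x) + 1 := by gcongr; exact map_add_le_add _ _ _
      _ ≤ R := by simp only [R]; linarith
  have hq : N (vtx d - g) ≤ 1 := by
    by_contra h
    exact absurd (ht g ⟨hg, hgR⟩ (not_le.1 h)) (not_lt.2 hgN)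
  have hg0 : g ≠ 0 := by
    rintro rfl
    have h1 := (sub_le_N _ none (some k)).trans hgN
    simp only [sub_zero, map_add, map_smul, Pi.add_apply, Pi.smul_apply, smul_eq_mul] at h1
    have h2 := vtx_sub (d := d) none (some k)
    have h3 := hxW none (some k)
    simp only [if_true, reduceCtorEq, if_false] at h2 h3
    have h4 : t * W x none - t * W x (some k) = t := by rw [← mul_sub, h3]; ring
    linarith
  have hlast : ∀ j, 1 ≤ W (vtx d - g) j - W (vtx d - g) none → j = some k := by
    intro j hj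
    by_contra hjk
    have hjn : j ≠ none := by rintro rfl; norm_num at hj
    have h1 := (sub_le_N _ j none).trans hgN
    have h2 : vtx d + t • x - g = (vtx d - g) + t • x := by abel
    rw [h2] at h1
    simp only [map_add, map_smul, Pi.add_apply, Pi.smul_apply, smul_eq_mul] at h1
    have h3 := hxW j none
    simp only [if_true, hjn, hjk, if_false] at h3
    have h4 : t * W x j - t * W x none = t := by rw [← mul_sub, h3]; ring
    linarith
  refine ⟨g, hg, hq, ?_, hlast⟩
  obtain ⟨i, j, hij⟩ := exists_of_le_N (hP g hg hg0)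
  have h1 : g = vtx d - (vtx d - g) := by abel
  rw [h1, map_sub] at hij
  simp only [Pi.sub_apply] at hij
  have h2 := vtx_sub (d := d) i j
  have h3 := (sub_le_N _ j i).trans hq
  have hi : i = none := by
    by_contra hi
    simp only [hi, if_false] at h2
    split_ifs at h2 <;> linarith
  subst hi
  have h4 : 1 ≤ W (vtx d - g) j - W (vtx d - g) none := by
    simp only [if_true] at h2
    split_ifs at h2 <;> linarith
  have h5 := hlast j h4
  subst h5
  linarith

/-- Uniqueness of the tiling. -/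
theorem single_mem (Γ : AddSubgroup (Fin d → ℝ)) (hP : ∀ g ∈ Γ, g ≠ 0 → 2 ≤ N g)
    (hC : ∀ y, ∃ g ∈ Γ, N (y - g) ≤ 1) (k : Fin d) : Pi.single k (1 : ℝ) ∈ Γ := by
  choose g hg hN h1 h2 using exists_top Γ hP hC
  have htop : ∀ k i j, 1 ≤ W (vtx d - g k) j - W (vtx d - g k) i → j = some k := by
    intro k i j h
    apply h2 k
    have := (sub_le_N _ (some k) i).trans (hN k)
    linarith [h1 k]
  have hall : ∀ a, a ≠ some k → W (vtx d - g k) (some k) - W (vtx d - g k) a = 1 := by
    intro a ha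
    cases a with
    | none => exact h1 k
    | some k' =>
      have hne : g k - g k' ≠ 0 := by
        intro h
        have h3 := h1 k'
        rw [← sub_eq_zero.1 h] at h3
        exact ha (h2 k _ h3.ge)
      obtain ⟨i, j, hij⟩ := exists_of_le_N (hP _ (Γ.sub_mem (hg k) (hg k')) hne)
      have h3 : g k - g k' = (vtx d - g k') - (vtx d - g k) := by abel
      rw [h3, map_sub] at hij
      simp only [Pi.sub_apply] at hij
      have h4 := (sub_le_N _ i j).trans (hN k')
      have h5 := (sub_le_N _ j i).trans (hN k)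
      have h6 := htop k' j i (by linarith)
      have h7 := htop k i j (by linarith)
      subst h6 h7
      linarith
  have hg' : ∀ i, -g k i - W (-g k) none = if i = k then 2 else 1 := by
    intro i
    have h3 := vtx_sub (d := d) (some i) none
    have h4 := hall none (by simp)
    simp only [map_sub, Pi.sub_apply, W_some] at h3 h4
    simp only [reduceCtorEq, if_false, if_true] at h3
    rw [map_neg, Pi.neg_apply]
    split_ifs with hi
    · subst hi; linarith
    · have h5 := hall (some i) (by simpa using hi)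
      simp only [Pi.sub_apply, W_some] at h5
      linarith
  have hsum : W (-g k) none = -1 := by
    have h3 : ∑ i, (-g k i - W (-g k) none) = ∑ i : Fin d, (if i = k then (2 : ℝ) else 1) :=
      Finset.sum_congr rfl fun i _ => hg' i
    have h4 : ∑ i : Fin d, (if i = k then (2 : ℝ) else 1) = d + 1 := by
      have : ∀ i : Fin d, (if i = k then (2 : ℝ) else 1) = 1 + if i = k then 1 else 0 := by
        intro i; split_ifs <;> norm_num
      simp [this, Finset.sum_add_distrib]
    rw [h4, Finset.sum_sub_distrib] at h3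
    have h5 : ∑ i, -g k i = -W (-g k) none := by simp
    simp only [Finset.sum_const, Finset.card_univ, Fintype.card_fin, nsmul_eq_mul] at h3
    have h6 : ((d : ℝ) + 1) * (W (-g k) none + 1) = 0 := by linarith
    have h7 : (d : ℝ) + 1 ≠ 0 := by positivity
    have := (mul_eq_zero.1 h6).resolve_left h7
    linarith
  have : Pi.single k (1 : ℝ) = -g k := by
    funext i
    have h3 := hg' i
    rw [hsum] at h3
    rw [Pi.single_apply, Pi.neg_apply]
    split_ifs at h3 ⊢ <;> linarith
  rw [this]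
  exact Γ.neg_mem (hg k)

/-- Stability of the tiling. -/
theorem exists_near (d : ℕ) {ρ : ℝ} (hρ : 0 < ρ) : ∃ θ : ℝ, 0 < θ ∧
    ∀ Γ : AddSubgroup (Fin d → ℝ), (∀ g ∈ Γ, g ≠ 0 → 2 - θ ≤ N g) →
      (∀ y, ∃ g ∈ Γ, N (y - g) ≤ 1 + θ) → ∀ k, ∃ g ∈ Γ, ‖g - Pi.single k 1‖ < ρ := by
  by_contra hcon
  push Not at hcon
  choose Γ hP hC k hk using fun n : ℕ => hcon (1 / ((n : ℝ) + 1)) (by positivity)
  let 𝒰 : Ultrafilter ℕ := hyperfilter ℕ
  have hU : (𝒰 : Filter ℕ) ≤ atTop := Nat.hyperfilter_le_atTop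
  have h0 : Tendsto (fun n : ℕ => 1 / ((n : ℝ) + 1)) 𝒰 (𝓝 0) :=
    tendsto_one_div_add_atTop_nhds_zero_nat.mono_left hU
  let L : AddSubgroup (Fin d → ℝ) :=
    { carrier := {g | ∃ u : ℕ → Fin d → ℝ, (∀ n, u n ∈ Γ n) ∧ Tendsto u 𝒰 (𝓝 g)}
      zero_mem' := ⟨fun _ => 0, fun n => (Γ n).zero_mem, tendsto_const_nhds⟩
      add_mem' := by
        rintro a b ⟨u, hu, hu'⟩ ⟨v, hv, hv'⟩
        exact ⟨u + v, fun n => (Γ n).add_mem (hu n) (hv n), hu'.add hv'⟩
      neg_mem' := by
        rintro a ⟨u, hu, hu'⟩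
        exact ⟨-u, fun n => (Γ n).neg_mem (hu n), hu'.neg⟩ }
  have hLP : ∀ g ∈ L, g ≠ 0 → 2 ≤ N g := by
    rintro g ⟨u, hu, hu'⟩ hg
    have h1 : ∀ᶠ n in (𝒰 : Filter ℕ), u n ≠ 0 := hu'.eventually_ne hg
    have h2 : Tendsto (fun n : ℕ => 2 - 1 / ((n : ℝ) + 1)) 𝒰 (𝓝 (2 - 0)) :=
      tendsto_const_nhds.sub h0
    rw [sub_zero] at h2
    exact le_of_tendsto_of_tendsto h2 ((continuous_N.tendsto g).comp hu')
      (h1.mono fun n hn => hP n _ (hu n) hn)
  have hLC : ∀ y, ∃ g ∈ L, N (y - g) ≤ 1 := by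
    intro y
    choose u hu hu' using fun n => hC n y
    have hb : ∀ n, u n ∈ closedBall y 2 := by
      intro n
      rw [mem_closedBall, dist_comm, dist_eq_norm]
      have h1 : 1 / ((n : ℝ) + 1) ≤ 1 := by
        rw [div_le_one (by positivity)]; linarith [(Nat.cast_nonneg n : (0 : ℝ) ≤ n)]
      linarith [norm_le_N (y - u n), hu' n]
    obtain ⟨g, -, hg⟩ := (isCompact_closedBall y 2).ultrafilter_le_nhds' (𝒰.map u)
      (mem_map.2 (univ_mem' hb))
    have hg' : Tendsto u 𝒰 (𝓝 g) := hg
    refine ⟨g, ⟨u, hu, hg'⟩, ?_⟩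
    have h2 : Tendsto (fun n : ℕ => 1 + 1 / ((n : ℝ) + 1)) 𝒰 (𝓝 (1 + 0)) :=
      tendsto_const_nhds.add h0
    rw [add_zero] at h2
    exact le_of_tendsto_of_tendsto' ((continuous_N.tendsto _).comp (tendsto_const_nhds.sub hg'))
      h2 hu'
  obtain ⟨k₀, hk₀⟩ : ∃ k₀, ∀ᶠ n in (𝒰 : Filter ℕ), k n = k₀ := by
    have := (Ultrafilter.eventually_exists_iff (f := 𝒰) (P := fun k₀ n => k n = k₀)).1
      (Eventually.of_forall fun n => ⟨k n, rfl⟩)
    exact this
  obtain ⟨u, hu, hu'⟩ := single_mem L hLP hLC k₀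
  have h3 : ∀ᶠ n in (𝒰 : Filter ℕ), dist (u n) (Pi.single k₀ 1) < ρ :=
    Metric.tendsto_nhds.1 hu' ρ hρ
  obtain ⟨n, hn1, hn2⟩ := (hk₀.and h3).exists
  have h4 := hk n (u n) (hu n)
  rw [hn1, ← dist_eq_norm] at h4
  linarith

end Pool.Agent.P.MP_73fc50_co.G
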