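import Mathlib
import Pool.Agent.P.MP_73fc50_co.G.Tiling

/-!
Volume arguments: a lattice which nearly packs the cell `{N ≤ 1}` and has determinant nearly `1`
has a basis close to the standard basis.
-/

set_option autoImplicit false

open Set Metric Topology Matrix Filter MeasureTheory Module
open scoped Pointwise

namespace Pool.Agent.P.MP_73fc50_co.G

variable {d : ℕ}

theorem Q_sub_root (u : Fin d → ℝ) {a b : Option (Fin d)} (h : a ≠ b) :
    Q (u - cz (root (a, b))) = Q u - 2 * (W u a - W u b) + 2 := by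
  rw [Q_eq_sum, Q_eq_sum]
  have : ∀ c, W (u - cz (root (a, b))) c ^ 2 = W u c ^ 2 - 2 * ((if c = a then W u c else 0) -
      (if c = b then W u c else 0)) + ((if c = a then 1 else 0) + (if c = b then 1 else 0)) := by
    intro c
    rw [map_sub, Pi.sub_apply, W_root]
    by_cases h1 : c = a
    · subst h1; simp [h]; ring
    · by_cases h2 : c = b
      · subst h2; simp [h1]; ring
      · simp [h1, h2]
  simp only [this, Finset.sum_add_distrib, Finset.sum_sub_distrib, ← Finset.mul_sum,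
    Finset.sum_ite_eq', Finset.mem_univ, if_true]
  norm_num

theorem Q_nonneg (x : Fin d → ℝ) : 0 ≤ Q x := by unfold Q; positivity

theorem exists_cover (x : Fin d → ℝ) {ε : ℝ} (hε : 0 < ε) : ∃ z, N (x - cz z) < 1 + ε := by
  have hb : BddBelow (range fun z : Fin d → ℤ => Q (x - cz z)) :=
    ⟨0, by rintro _ ⟨z, rfl⟩; exact Q_nonneg _⟩
  obtain ⟨z, hz⟩ := exists_lt_of_ciInf_lt
    (show (⨅ z : Fin d → ℤ, Q (x - cz z)) < (⨅ z : Fin d → ℤ, Q (x - cz z)) + ε by linarith)
  refine ⟨z, N_lt fun a b => ?_⟩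
  by_cases h : a = b
  · subst h; linarith
  have h1 := ciInf_le hb (z + root (a, b))
  have h2 : x - cz (z + root (a, b)) = (x - cz z) - cz (root (a, b)) := by
    funext i; simp [cz]; ring
  rw [h2, Q_sub_root _ h] at h1
  linarith

/-- The basis formed by the columns of a nonsingular matrix. -/
noncomputable def colBasis (B : Matrix (Fin d) (Fin d) ℝ) (hB : B.det ≠ 0) :
    Basis (Fin d) ℝ (Fin d → ℝ) :=
  (Pi.basisFun ℝ (Fin d)).map (B.toLinearEquiv' (invertibleOfIsUnitDet B (IsUnit.mk0 _ hB)))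

theorem colBasis_apply (B : Matrix (Fin d) (Fin d) ℝ) (hB : B.det ≠ 0) (i j : Fin d) :
    colBasis B hB i j = B j i := by
  have : colBasis B hB i = B *ᵥ Pi.single i 1 := by
    rw [colBasis, Basis.map_apply, Pi.basisFun_apply]; rfl
  rw [this]; simp

theorem mem_span_colBasis (B : Matrix (Fin d) (Fin d) ℝ) (hB : B.det ≠ 0) (g : Fin d → ℝ) :
    g ∈ (Submodule.span ℤ (range (colBasis B hB))).toAddSubgroup ↔ ∃ z, g = B *ᵥ cz z := by
  rw [Submodule.mem_toAddSubgroup, Submodule.mem_span_range_iff_exists_fun]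
  have : ∀ z : Fin d → ℤ, ∑ i, z i • colBasis B hB i = B *ᵥ cz z := by
    intro z
    funext j
    simp [Finset.sum_apply, colBasis_apply, Matrix.mulVec, dotProduct, mul_comm]
  simp only [this]
  exact ⟨fun ⟨z, hz⟩ => ⟨z, hz.symm⟩, fun ⟨z, hz⟩ => ⟨z, hz.symm⟩⟩

theorem volume_colBasis (B : Matrix (Fin d) (Fin d) ℝ) (hB : B.det ≠ 0) :
    volume (ZSpan.fundamentalDomain (colBasis B hB)) = ENNReal.ofReal |B.det| := by
  rw [ZSpan.volume_fundamentalDomain, ← Matrix.det_transpose B]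
  congr 3
  ext i j
  simp [colBasis_apply]

instance countable_span (b : Basis (Fin d) ℝ (Fin d → ℝ)) :
    Countable (Submodule.span ℤ (range b)).toAddSubgroup :=
  inferInstanceAs (Countable (Submodule.span ℤ (range b)))

theorem volume_le_det (B : Matrix (Fin d) (Fin d) ℝ) (hB : B.det ≠ 0) {S : Set (Fin d → ℝ)}
    (hS : MeasurableSet S) (h : ∀ x ∈ S, ∀ y ∈ S, ∀ z, z ≠ 0 → y - x ≠ B *ᵥ cz z) :
    volume S ≤ ENNReal.ofReal |B.det| := by
  by_contra hlt
  rw [not_le, ← volume_colBasis B hB] at hlt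
  obtain ⟨x, hx, y, hy, g, hg, hxy⟩ :=
    (ZSpan.isAddFundamentalDomain' (colBasis B hB) volume).exists_ne_zero_vadd_eq
      hS.nullMeasurableSet hlt
  obtain ⟨z, hz⟩ := (mem_span_colBasis B hB g).1 g.2
  refine h x hx y hy z ?_ ?_
  · rintro rfl
    apply hg
    apply Subtype.ext
    rw [hz]
    have : cz (0 : Fin d → ℤ) = 0 := by funext i; simp
    rw [this, Matrix.mulVec_zero]; rfl
  · rw [← hz, ← hxy]
    change (g : Fin d → ℝ) + x - x = g
    abel

theorem one_le_volume {ε : ℝ} (hε : 0 < ε) : 1 ≤ volume ((N (d := d)).ball 0 (1 + ε)) := by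
  have h1 : (1 : Matrix (Fin d) (Fin d) ℝ).det ≠ 0 := by simp
  have hF := ZSpan.isAddFundamentalDomain' (colBasis 1 h1) volume
  have h2 := volume_colBasis 1 h1
  rw [Matrix.det_one, abs_one, ENNReal.ofReal_one] at h2
  rw [hF.measure_eq_tsum, ← h2]
  refine le_trans (measure_mono ?_) (measure_iUnion_le _)
  intro x hx
  obtain ⟨z, hz⟩ := exists_cover x hε
  refine mem_iUnion.2 ⟨⟨cz z, (mem_span_colBasis 1 h1 _).2 ⟨z, by simp⟩⟩, ?_, hx⟩
  refine ⟨x - cz z, by simpa using hz, ?_⟩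
  change cz z + (x - cz z) = x
  abel

theorem isOpen_ballN (y : Fin d → ℝ) (c : ℝ) : IsOpen ((N (d := d)).ball y c) := by
  have : (N (d := d)).ball y c = {x | N (x - y) < c} := by ext x; simp
  rw [this]
  exact isOpen_lt (continuous_N.comp (by fun_prop)) continuous_const

theorem volume_ballN (y : Fin d → ℝ) {c : ℝ} (hc : 0 < c) :
    volume ((N (d := d)).ball y c) =
      ENNReal.ofReal (c ^ d) * volume ((N (d := d)).ball 0 1) := by
  have h1 : (N (d := d)).ball y c = y +ᵥ (c • (N (d := d)).ball 0 1) := by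
    rw [Seminorm.smul_ball_zero hc.ne', Seminorm.vadd_ball]
    simp [abs_of_pos hc]
  rw [h1, measure_vadd, Measure.addHaar_smul_of_nonneg _ hc.le]
  simp

theorem volume_ballN_ne_top : volume ((N (d := d)).ball 0 1) ≠ ⊤ := by
  apply ne_top_of_le_ne_top 
    (measure_closedBall_lt_top (μ := volume) (x := (0 : Fin d → ℝ)) (r := 1)).ne
  apply measure_mono
  intro x hx
  rw [mem_closedBall_zero_iff]
  exact (norm_le_N x).trans (le_of_lt (by simpa using hx))

theorem one_le_vol : 1 ≤ (volume ((N (d := d)).ball 0 1)).toReal := by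
  set v := (volume ((N (d := d)).ball 0 1)).toReal
  have h1 : ∀ ε : ℝ, 0 < ε → 1 ≤ (1 + ε) ^ d * v := by
    intro ε hε
    have h2 := one_le_volume (d := d) hε
    rw [volume_ballN 0 (by positivity)] at h2
    have h3 := ENNReal.toReal_mono (ENNReal.mul_ne_top ENNReal.ofReal_ne_top volume_ballN_ne_top) h2
    rwa [ENNReal.toReal_mul, ENNReal.toReal_ofReal (by positivity), ENNReal.toReal_one] at h3
  have h2 : Tendsto (fun ε : ℝ => (1 + ε) ^ d * v) (𝓝[>] 0) (𝓝 ((1 + 0) ^ d * v)) :=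
    (Continuous.tendsto (by fun_prop) 0).mono_left nhdsWithin_le_nhds
  have h3 := ge_of_tendsto h2 (eventually_nhdsWithin_of_forall fun ε hε => h1 ε hε)
  simpa using h3

theorem det_lower_bound {η : ℝ} (hη : η < 2) (B : Matrix (Fin d) (Fin d) ℝ) (hB : B.det ≠ 0)
    (hP : ∀ z, z ≠ 0 → 2 - η ≤ N (B *ᵥ cz z)) : (1 - η / 2) ^ d ≤ |B.det| := by
  have hc : 0 < 1 - η / 2 := by linarith
  have h1 := volume_le_det B hB (isOpen_ballN 0 (1 - η / 2)).measurableSet (by
    intro x hx y hy z hz h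
    have h2 := hP z hz
    rw [← h] at h2
    have h3 := map_sub_le_add N y x
    simp only [Seminorm.mem_ball, sub_zero] at hx hy
    linarith)
  rw [volume_ballN 0 hc] at h1
  have h3 := ENNReal.toReal_mono ENNReal.ofReal_ne_top h1
  rw [ENNReal.toReal_mul, ENNReal.toReal_ofReal (by positivity),
    ENNReal.toReal_ofReal (abs_nonneg _)] at h3
  have h4 := one_le_vol (d := d)
  have h5 : 0 ≤ (1 - η / 2) ^ d := by positivity
  nlinarith

theorem exists_cover_of_det (d : ℕ) {θ : ℝ} (hθ : 0 < θ) : ∃ η : ℝ, 0 < η ∧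
    ∀ B : Matrix (Fin d) (Fin d) ℝ, B.det ≠ 0 → |B.det| ≤ (1 + η) ^ d →
      (∀ z, z ≠ 0 → 2 - η ≤ N (B *ᵥ cz z)) → ∀ y, ∃ z, N (y - B *ᵥ cz z) ≤ 1 + θ := by
  set t := min θ 1 with ht
  have ht0 : 0 < t := lt_min hθ one_pos
  have ht1 : t ≤ θ := min_le_left _ _
  have ht2 : t ≤ 1 := min_le_right _ _
  have hev : ∀ᶠ η in 𝓝 (0 : ℝ), (1 + η) ^ d < (1 - η / 2) ^ d + (t / 2) ^ d ∧ η < 1 := by
    refine Eventually.and ?_ (eventually_lt_nhds one_pos)
    exact (Continuous.continuousAt (by fun_prop)).eventually_lt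
      (Continuous.continuousAt (by fun_prop)) (by simp; positivity)
  have hpos : ∀ᶠ η in 𝓝[>] (0 : ℝ), 0 < η := self_mem_nhdsWithin
  obtain ⟨η, hη, h1, h2⟩ := (hpos.and (hev.filter_mono nhdsWithin_le_nhds)).exists
  refine ⟨η, hη, fun B hB hdet hP y => ?_⟩
  by_contra hy
  push Not at hy
  have hc : 0 < 1 - η / 2 := by linarith
  have hmix : ∀ x x' z, N x < 1 - η / 2 → N (x' - y) < t / 2 → x' - x ≠ B *ᵥ cz z := by
    intro x x' z hx hx' h
    have h3 := hy z
    rw [← h] at h3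
    have h4 : y - (x' - x) = x - (x' - y) := by abel
    rw [h4] at h3
    have h5 := map_sub_le_add N x (x' - y)
    linarith
  have hdisj : Disjoint ((N (d := d)).ball 0 (1 - η / 2)) ((N (d := d)).ball y (t / 2)) := by
    rw [Set.disjoint_left]
    intro x hx hx'
    simp only [Seminorm.mem_ball, sub_zero] at hx hx'
    refine hmix x x 0 hx hx' ?_
    have : cz (0 : Fin d → ℤ) = 0 := by funext i; simp
    rw [this, Matrix.mulVec_zero, sub_self]
  have h3 := volume_le_det B hB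
    ((isOpen_ballN 0 (1 - η / 2)).union (isOpen_ballN y (t / 2))).measurableSet (by
    intro x hx x' hx' z hz h
    have h2 := hP z hz
    simp only [mem_union, Seminorm.mem_ball, sub_zero] at hx hx'
    rcases hx with hx | hx <;> rcases hx' with hx' | hx'
    · rw [← h] at h2
      have h3 := map_sub_le_add N x' x
      linarith
    · exact hmix x x' z hx hx' h
    · refine hmix x' x (-z) hx' hx ?_
      have : cz (-z) = -cz z := by funext i; simp [cz]
      rw [this, Matrix.mulVec_neg, ← h]; abel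
    · have h4 : x' - x = (x' - y) - (x - y) := by abel
      rw [← h, h4] at h2
      have h3 := map_sub_le_add N (x' - y) (x - y)
      linarith)
  rw [measure_union hdisj (isOpen_ballN y _).measurableSet, volume_ballN 0 hc,
    volume_ballN y (by positivity), ← add_mul, ← ENNReal.ofReal_add (by positivity) (by positivity)]
    at h3
  have h4 := ENNReal.toReal_mono ENNReal.ofReal_ne_top h3
  rw [ENNReal.toReal_mul, ENNReal.toReal_ofReal (by positivity),
    ENNReal.toReal_ofReal (abs_nonneg _)] at h4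
  have h5 := one_le_vol (d := d)
  have h6 : 0 ≤ (1 - η / 2) ^ d + (t / 2) ^ d := by positivity
  nlinarith

/-- A lattice that nearly packs the cell with nearly optimal determinant has a basis near the
standard one. -/
theorem exists_basis_near (d : ℕ) {ρ : ℝ} (hρ : 0 < ρ) : ∃ η : ℝ, 0 < η ∧
    ∀ B : Matrix (Fin d) (Fin d) ℝ, B.det ≠ 0 → |B.det| ≤ (1 + η) ^ d →
      (∀ z, z ≠ 0 → 2 - η ≤ N (B *ᵥ cz z)) → ∃ Z : Matrix (Fin d) (Fin d) ℤ, |Z.det| = 1 ∧
        ∀ i j, |(B * Z.map (Int.cast : ℤ → ℝ) - 1) i j| < ρ := by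
  obtain ⟨ρ₁, hρ₁, hdet⟩ : ∃ ρ₁ : ℝ, 0 < ρ₁ ∧ ∀ A : Matrix (Fin d) (Fin d) ℝ,
      (∀ i j, |(A - 1) i j| < ρ₁) → |A.det - 1| < 1 / 4 := by
    have hc : Continuous fun H : Fin d → Fin d → ℝ => (1 + Matrix.of H).det :=
      differentiable_detf.continuous
    obtain ⟨ρ₁, hρ₁, h⟩ := Metric.continuousAt_iff.1 (hc.continuousAt (x := 0)) (1 / 4) (by norm_num)
    refine ⟨ρ₁, hρ₁, fun A hA => ?_⟩
    have := h (x := Matrix.of.symm (A - 1)) (by
      rw [dist_zero_right, pi_norm_lt_iff hρ₁]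
      intro i
      rw [pi_norm_lt_iff hρ₁]
      intro j
      exact hA i j)
    simpa [Real.dist_eq] using this
  obtain ⟨θ, hθ, hnear⟩ := exists_near d (lt_min hρ hρ₁)
  obtain ⟨η₁, hη₁, hcov⟩ := exists_cover_of_det d hθ
  have hev : ∀ᶠ η in 𝓝 (0 : ℝ), 5 / 8 < (1 - η / 2) ^ d ∧ η < 1 ∧ η < θ ∧ η < η₁ := by
    refine Eventually.and ?_ ((eventually_lt_nhds one_pos).and
      ((eventually_lt_nhds hθ).and (eventually_lt_nhds hη₁)))
    exact continuousAt_const.eventually_lt (Continuous.continuousAt (by fun_prop)) (by norm_num)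
  have hpos : ∀ᶠ η in 𝓝[>] (0 : ℝ), 0 < η := self_mem_nhdsWithin
  obtain ⟨η, hη, h1, h2, h3, h4⟩ := (hpos.and (hev.filter_mono nhdsWithin_le_nhds)).exists
  refine ⟨η, hη, fun B hB hBd hP => ?_⟩
  have hc := hcov B hB (hBd.trans (by gcongr)) (fun z hz => le_trans (by linarith) (hP z hz))
  have h5 := hnear (Submodule.span ℤ (range (colBasis B hB))).toAddSubgroup (by
    intro g hg hg0
    obtain ⟨z, rfl⟩ := (mem_span_colBasis B hB g).1 hg
    refine le_trans (by linarith) (hP z ?_)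
    rintro rfl
    apply hg0
    have : cz (0 : Fin d → ℤ) = 0 := by funext i; simp
    rw [this, Matrix.mulVec_zero]) (by
    intro y
    obtain ⟨z, hz⟩ := hc y
    exact ⟨_, (mem_span_colBasis B hB _).2 ⟨z, rfl⟩, hz⟩)
  choose g hg hgn using h5
  choose z hz using fun k => (mem_span_colBasis B hB _).1 (hg k)
  let Z : Matrix (Fin d) (Fin d) ℤ := Matrix.of fun i k => z k i
  have hZ : ∀ i j, |(B * Z.map (Int.cast : ℤ → ℝ) - 1) i j| < min ρ ρ₁ := by
    intro i j
    have h6 := (norm_le_pi_norm (g j - Pi.single j 1) i).trans_lt (hgn j)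
    rw [hz j] at h6
    refine lt_of_eq_of_lt ?_ h6
    simp [Matrix.mul_apply, Matrix.mulVec, dotProduct, Z, Matrix.one_apply, Pi.single_apply, cz]
  refine ⟨Z, ?_, fun i j => (hZ i j).trans_le (min_le_left _ _)⟩
  have h6 := hdet _ fun i j => (hZ i j).trans_le (min_le_right _ _)
  rw [Matrix.det_mul, ← Int.cast_det] at h6
  have h7 := det_lower_bound (by linarith) B hB hP
  have h8 : |B.det * (Z.det : ℝ)| < 5 / 4 := by
    have := abs_lt.1 h6
    rw [abs_lt]; constructor <;> linarith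
  have h9 : Z.det ≠ 0 := by
    intro h
    rw [h] at h6
    norm_num at h6
  have h10 : |(Z.det : ℝ)| < 2 := by
    rw [abs_mul] at h8
    by_contra h
    nlinarith [not_lt.1 h]
  have h11 : |Z.det| < 2 := by exact_mod_cast h10
  have h12 : 0 < |Z.det| := abs_pos.2 h9
  omega

end Pool.Agent.P.MP_73fc50_co.G
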