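import Mathlib
import Pool.Agent.P.MP_73fc50_co.G.Volume

/-!
Local rigidity: for sets `K` close to twice the shaved Voronoi cell of `A_d`, every admissible
lattice of nearly minimal determinant has a basis very close to the standard one, and only the
images of the roots can lie in `K`.
-/

set_option autoImplicit false

open Set Metric Topology Matrix Filter

namespace Pool.Agent.P.MP_73fc50_co.G

variable {d : ℕ}

/-- `K` is squeezed between two slightly rescaled copies of the shaved cell. -/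
def Sand (δ η : ℝ) (K : Set (Fin d → ℝ)) : Prop :=
  (∀ x, N x < 2 - η → N3 x < 4 - 2 * δ - 2 * η → x ∈ interior K) ∧
    ∀ x ∈ K, N x ≤ 2 + η ∧ N3 x ≤ 4 - 2 * δ + 2 * η

theorem norm_mulVec_le {E : Matrix (Fin d) (Fin d) ℝ} {τ : ℝ} (hτ : 0 ≤ τ)
    (hE : ∀ i j, |E i j| ≤ τ) (x : Fin d → ℝ) : ‖E *ᵥ x‖ ≤ d * τ * ‖x‖ := by
  rw [pi_norm_le_iff_of_nonneg (by positivity)]
  intro i
  calc ‖(E *ᵥ x) i‖ = |∑ j, E i j * x j| := rfl
    _ ≤ ∑ j, |E i j * x j| := Finset.abs_sum_le_sum_abs _ _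
    _ ≤ ∑ _j : Fin d, τ * ‖x‖ := Finset.sum_le_sum fun j _ => by
        rw [abs_mul]
        exact mul_le_mul (hE i j) (norm_le_pi_norm x j) (abs_nonneg _) hτ
    _ = d * τ * ‖x‖ := by simp [mul_assoc]

theorem mulVec_eq_add (A : Matrix (Fin d) (Fin d) ℝ) (x : Fin d → ℝ) :
    A *ᵥ x = x + (A - 1) *ᵥ x := by
  rw [Matrix.sub_mulVec, Matrix.one_mulVec]; abel

theorem root_ineq {δ η ρ : ℝ} {K : Set (Fin d → ℝ)} (hK : Sand δ η K) (hδ : 0 ≤ δ)
    (hδη : δ + η ≤ 1 / 8) (hρ : 0 ≤ ρ) (hρd : 2 * (d + 1) * (d * ρ) ≤ 1 / 8)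
    {A : Matrix (Fin d) (Fin d) ℝ} (hA : ∀ i j, |(A - 1) i j| ≤ ρ)
    (hadm : ∀ z, z ≠ 0 → A *ᵥ cz z ∉ interior K) {a b : Option (Fin d)} (hab : a ≠ b) :
    2 - η ≤ W (A *ᵥ cz (root (a, b))) a - W (A *ᵥ cz (root (a, b))) b := by
  set l := cz (root (a, b)) with hl
  have h1 : N ((A - 1) *ᵥ l) ≤ 1 / 8 := by
    have h2 := norm_mulVec_le hρ hA l
    have h3 : ‖l‖ ≤ 1 := norm_root _
    have h4 : (d : ℝ) * ρ * ‖l‖ ≤ d * ρ := mul_le_of_le_one_right (by positivity) h3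
    refine (N_le_norm _).trans (le_trans ?_ hρd)
    gcongr
    linarith
  have h2 : N3 (A *ᵥ l) < 4 - 2 * δ - 2 * η := by
    rw [mulVec_eq_add]
    have h3 := map_add_le_add N3 l ((A - 1) *ᵥ l)
    have h4 : N3 l ≤ 3 := N3_root _
    have h5 := N3_le_N ((A - 1) *ᵥ l)
    linarith
  have h3 : 2 - η ≤ N (A *ᵥ l) := by
    by_contra h
    exact hadm _ (root_ne_zero hab) (hK.1 _ (not_le.1 h) h2)
  obtain ⟨i, j, hij⟩ := exists_of_le_N h3
  have h4 := (sub_le_N ((A - 1) *ᵥ l) i j).trans h1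
  have h5 : 1 < W l i - W l j := by
    rw [mulVec_eq_add, map_add] at hij
    simp only [Pi.add_apply] at hij
    linarith
  rw [hl, W_root, W_root] at h5
  have hi : i = a := by
    by_contra hi
    simp only [hi, if_false] at h5
    split_ifs at h5 <;> linarith
  have hj : j = b := by
    by_contra hj
    simp only [hj, if_false] at h5
    split_ifs at h5 <;> linarith
  rw [hi, hj] at hij
  exact hij

theorem cz_root_single (j : Fin d) : cz (root (some j, none)) = Pi.single j 1 := by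
  funext i
  simp [cz, root, Pi.single_apply]

theorem close_of_roots (d : ℕ) : ∃ ρ : ℝ, 0 < ρ ∧ ∀ τ : ℝ, 0 < τ → ∀ᶠ η in 𝓝 (0 : ℝ), 0 ≤ η →
    ∀ A : Matrix (Fin d) (Fin d) ℝ, (∀ i j, |(A - 1) i j| < ρ) →
      (∀ a b, a ≠ b → 2 - η ≤ W (A *ᵥ cz (root (a, b))) a - W (A *ᵥ cz (root (a, b))) b) →
      |A.det| ≤ (1 + η) ^ d → ∀ i j, |(A - 1) i j| < τ := by
  obtain ⟨ρ₀, hρ₀, hkey⟩ := exists_det_bound d
  set r : ℝ := min ρ₀ (1 / (3 * (d + 1))) with hr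
  have hr0 : 0 < r := lt_min hρ₀ (by positivity)
  have hrd : r * d ≤ 1 / 3 := by
    have : r ≤ 1 / (3 * (d + 1)) := min_le_right _ _
    rw [le_div_iff₀ (by positivity)] at this
    linarith
  have hopen : IsOpen {H : Fin d → Fin d → ℝ | ∀ i j, |dev (1 + Matrix.of H) i j| < r} := by
    simp only [ofPred_forall]
    refine isOpen_iInter_of_finite fun i => isOpen_iInter_of_finite fun j =>
      isOpen_lt (Continuous.abs ?_) continuous_const
    have h1 : Continuous fun H : Matrix (Fin d) (Fin d) ℝ => dev (1 + H) :=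
      continuous_dev.comp (continuous_const.add continuous_id)
    exact h1.matrix_elem i j
  obtain ⟨ρ, hρ, hball⟩ := Metric.isOpen_iff.1 hopen 0 (by
    intro i j
    simp [dev, hr0])
  refine ⟨ρ, hρ, fun τ hτ => ?_⟩
  have hev : ∀ᶠ η in 𝓝 (0 : ℝ),
      2 * (d + 1) * ((1 + η) ^ (2 * d) - 1 + (d + 1) * (2 * η)) + 2 * η < τ ^ 2 ∧ η < 1 := by
    refine Eventually.and ?_ (eventually_lt_nhds one_pos)
    exact (Continuous.continuousAt (by fun_prop)).eventually_lt continuousAt_const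
      (by simp; positivity)
  filter_upwards [hev] with η ⟨h1, h2⟩ hη A hA hroot hdet
  have hdev : ∀ i j, |dev A i j| ≤ r := by
    have : (Matrix.of.symm (A - 1) : Fin d → Fin d → ℝ) ∈ ball 0 ρ := by
      rw [mem_ball, dist_zero_right, pi_norm_lt_iff hρ]
      intro i
      rw [pi_norm_lt_iff hρ]
      intro j
      exact hA i j
    intro i j
    have h3 := hball this i j
    simp only [Equiv.apply_symm_apply, add_sub_cancel] at h3
    exact h3.le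
  have hadm : ∀ z : Fin d → ℤ, z ≠ 0 → 2 - 2 * η ≤ Q (A *ᵥ fun i => (z i : ℝ)) := by
    intro z hz
    by_cases h3 : Q (fun i => (z i : ℝ)) < 3
    · obtain ⟨⟨a, b⟩, rfl⟩ := exists_root z h3
      have hab : a ≠ b := by
        rintro rfl
        exact hz (funext fun i => by simp [root])
      have h4 := hroot a b hab
      have h5 := Finset.sum_le_sum_of_subset_of_nonneg
        (f := fun c => W (A *ᵥ cz (root (a, b))) c ^ 2)
        (Finset.subset_univ {a, b}) (fun i _ _ => sq_nonneg _)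
      rw [Finset.sum_pair hab, ← Q_eq_sum] at h5
      change 2 - 2 * η ≤ Q (A *ᵥ cz (root (a, b)))
      nlinarith [sq_nonneg (W (A *ᵥ cz (root (a, b))) a + W (A *ᵥ cz (root (a, b))) b),
        sq_nonneg η]
    · have h4 := Q_mulVec_lower hr0.le hdev (fun i => (z i : ℝ))
      nlinarith [not_lt.1 h3]
  obtain ⟨s, hs0, hs, hsdet⟩ := hkey A (2 * η) r (by linarith) hr0.le (min_le_left _ _) hdev hadm
  have hle : A.det ^ 2 ≤ (1 + η) ^ (2 * d) := by
    rw [mul_comm, pow_mul, ← sq_abs]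
    gcongr
  have hs2 : s + 2 * η < τ ^ 2 := by
    have h3 : s / (2 * (d + 1)) ≤ (1 + η) ^ (2 * d) - 1 + (d + 1) * (2 * η) := by linarith
    rw [div_le_iff₀ (by positivity)] at h3
    linarith
  intro i j
  have h3 := Q_sub_root (A *ᵥ cz (root (some j, none))) (a := some j) (b := none) (by simp)
  have h4 := hroot (some j) none (by simp)
  have h5 : Q (A *ᵥ cz (root (some j, none))) ≤ 2 + s := by
    rw [cz_root_single, Q_mulVec_dev, Q_single]
    have := (abs_le.1 (hs j j)).2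
    simp
    linarith
  have h6 := sq_le_Q (A *ᵥ cz (root (some j, none)) - cz (root (some j, none))) i
  have h7 : (A *ᵥ cz (root (some j, none)) - cz (root (some j, none))) i = (A - 1) i j := by
    rw [cz_root_single]
    simp [Matrix.one_apply, Pi.single_apply]
  rw [h7] at h6
  exact abs_lt_of_sq_lt_sq (by linarith) hτ.le

theorem root_of_mem {δ η τ : ℝ} {K : Set (Fin d → ℝ)} (hK : Sand δ η K) (hη : 0 ≤ η)
    (hδη : δ + η ≤ 1 / 8) (hτ : 0 ≤ τ) (hτd : 12 * (d + 1) * (d * τ) + η < δ)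
    {A : Matrix (Fin d) (Fin d) ℝ} (hA : ∀ i j, |(A - 1) i j| ≤ τ) {z : Fin d → ℤ} (hz : z ≠ 0)
    (hmem : A *ᵥ cz z ∈ K) : ∃ a b, a ≠ b ∧ z = root (a, b) := by
  obtain ⟨h1, h2⟩ := hK.2 _ hmem
  have h3 := norm_mulVec_le hτ hA (cz z)
  have hdτ : 0 ≤ (d : ℝ) * τ := by positivity
  have hd : (0 : ℝ) ≤ d := by positivity
  have hdτ2 : (d : ℝ) * τ ≤ 1 / 2 := by nlinarith
  have h4 : cz z = A *ᵥ cz z - (A - 1) *ᵥ cz z := by rw [mulVec_eq_add A]; abel
  have h5 : ‖cz z‖ ≤ 6 := by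
    have h6 : ‖cz z‖ ≤ ‖A *ᵥ cz z‖ + ‖(A - 1) *ᵥ cz z‖ := by
      conv_lhs => rw [h4]
      exact norm_sub_le _ _
    have h7 := norm_le_N (A *ᵥ cz z)
    nlinarith [norm_nonneg (cz z)]
  have h6 : N ((A - 1) *ᵥ cz z) ≤ 12 * (d + 1) * (d * τ) := by
    refine (N_le_norm _).trans ?_
    have : (d : ℝ) * τ * ‖cz z‖ ≤ d * τ * 6 := by gcongr
    nlinarith
  apply eq_root hz
  · have := map_sub_le_add N (A *ᵥ cz z) ((A - 1) *ᵥ cz z)
    rw [← h4] at this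
    linarith
  · have := map_sub_le_add N3 (A *ᵥ cz z) ((A - 1) *ᵥ cz z)
    rw [← h4] at this
    have := N3_le_N ((A - 1) *ᵥ cz z)
    linarith

theorem map_mulVec (Z : Matrix (Fin d) (Fin d) ℤ) (z : Fin d → ℤ) :
    Z.map (Int.cast : ℤ → ℝ) *ᵥ cz z = cz (Z *ᵥ z) := by
  funext i
  simp [cz, Matrix.mulVec, dotProduct]

theorem adm_mul {K : Set (Fin d → ℝ)} {B : Matrix (Fin d) (Fin d) ℝ}
    (hB : ∀ z, z ≠ 0 → B *ᵥ cz z ∉ K) {Z : Matrix (Fin d) (Fin d) ℤ} (hZ : |Z.det| = 1) :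
    ∀ z, z ≠ 0 → (B * Z.map (Int.cast : ℤ → ℝ)) *ᵥ cz z ∉ K := by
  intro z hz
  rw [← Matrix.mulVec_mulVec, map_mulVec]
  refine hB _ fun h => hz (Matrix.eq_zero_of_mulVec_eq_zero ?_ h)
  intro h0
  rw [h0] at hZ
  simp at hZ

theorem abs_det_mul (B : Matrix (Fin d) (Fin d) ℝ) {Z : Matrix (Fin d) (Fin d) ℤ}
    (hZ : |Z.det| = 1) : |(B * Z.map (Int.cast : ℤ → ℝ)).det| = |B.det| := by
  rw [Matrix.det_mul, ← Int.cast_det, abs_mul, ← Int.cast_abs, hZ]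
  simp

/-- The parameters. -/
theorem exists_params (d : ℕ) : ∃ δ η τ : ℝ, 0 < η ∧ 0 < δ ∧ δ + η ≤ 1 / 8 ∧
    ∀ K : Set (Fin d → ℝ), Sand δ η K →
      (∀ B : Matrix (Fin d) (Fin d) ℝ, B.det ≠ 0 → (∀ z, z ≠ 0 → B *ᵥ cz z ∉ interior K) →
        |B.det| ≤ (1 + η) ^ d → ∃ Z : Matrix (Fin d) (Fin d) ℤ, |Z.det| = 1 ∧
          ∀ i j, |(B * Z.map (Int.cast : ℤ → ℝ) - 1) i j| < τ) ∧
      ∀ A : Matrix (Fin d) (Fin d) ℝ, (∀ i j, |(A - 1) i j| ≤ τ) →
        A.det ≠ 0 ∧ ∀ z, z ≠ 0 → A *ᵥ cz z ∈ K → ∃ a b, a ≠ b ∧ z = root (a, b) := by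
  obtain ⟨ρ₀, hρ₀, hclose⟩ := close_of_roots d
  set ρ : ℝ := min ρ₀ (1 / (16 * (d + 1) ^ 2)) with hρ
  have hρ0 : 0 < ρ := lt_min hρ₀ (by positivity)
  have hd : (0 : ℝ) ≤ d := by positivity
  have hρd : 2 * (d + 1) * (d * ρ) ≤ 1 / 8 := by
    have : ρ ≤ 1 / (16 * (d + 1) ^ 2) := min_le_right _ _
    rw [le_div_iff₀ (by positivity)] at this
    nlinarith
  obtain ⟨η₀, hη₀, hnear⟩ := exists_basis_near d hρ0
  set δ : ℝ := min (η₀ / 2) (1 / 16) with hδ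
  have hδ0 : 0 < δ := lt_min (by positivity) (by norm_num)
  have hδ1 : δ ≤ η₀ / 2 := min_le_left _ _
  have hδ2 : δ ≤ 1 / 16 := min_le_right _ _
  set τ : ℝ := δ / (24 * (d + 1) ^ 2) with hτ
  have hτ0 : 0 < τ := by positivity
  have hτd : 12 * (d + 1) * (d * τ) ≤ δ / 2 := by
    have : τ * (24 * (d + 1) ^ 2) = δ := by rw [hτ]; field_simp
    nlinarith
  have hpos : ∀ᶠ η in 𝓝[>] (0 : ℝ), 0 < η := self_mem_nhdsWithin
  obtain ⟨η, hη, h1, h2⟩ := (hpos.and (((hclose τ hτ0).and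
    (eventually_lt_nhds (half_pos hδ0))).filter_mono nhdsWithin_le_nhds)).exists
  refine ⟨δ, η, τ, hη, hδ0, by linarith, fun K hK => ⟨fun B hB hadm hdet => ?_, fun A hA => ?_⟩⟩
  · obtain ⟨Z, hZ, hZρ⟩ := hnear B hB (hdet.trans (by gcongr; linarith)) (by
      intro z hz
      by_contra h
      have h3 := N3_le_N (B *ᵥ cz z)
      exact hadm z hz (hK.1 _ (by linarith) (by linarith)))
    refine ⟨Z, hZ, h1 hη.le _ (fun i j => (hZρ i j).trans_le (min_le_left _ _))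
      (fun a b hab => ?_) (by rwa [abs_det_mul B hZ])⟩
    exact root_ineq hK hδ0.le (by linarith) hρ0.le hρd (fun i j => (hZρ i j).le)
      (adm_mul hadm hZ) hab
  · refine ⟨fun h0 => ?_, fun z hz hmem =>
      root_of_mem hK hη.le (by linarith) hτ0.le (by linarith) hA hz hmem⟩
    obtain ⟨v, hv, hAv⟩ := Matrix.exists_mulVec_eq_zero_iff.2 h0
    have h3 := norm_mulVec_le hτ0.le hA v
    have h4 : (A - 1) *ᵥ v = -v := by rw [Matrix.sub_mulVec, hAv, Matrix.one_mulVec, zero_sub]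
    rw [h4, norm_neg] at h3
    have h5 : 0 < ‖v‖ := norm_pos_iff.2 hv
    have hdτ : 0 ≤ (d : ℝ) * τ := by positivity
    have h6 : (d : ℝ) * τ ≤ 1 / 2 := by nlinarith
    nlinarith

end Pool.Agent.P.MP_73fc50_co.G
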