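import Mathlib
import Pool.Agent.P.MP_73fc50_co.G.Rigid

/-!
Existence of a densest lattice and the exact number of its points in `K`.
-/

set_option autoImplicit false

open Set Metric Topology Matrix Filter

namespace Pool.Agent.P.MP_73fc50_co.G

variable {d : ℕ}

/-- One root from each pair `± l`. -/
def rt (p : {p : Fin d × Fin d // p.1 ≤ p.2}) : Fin d → ℤ :=
  if p.1.1 = p.1.2 then root (some p.1.1, none) else root (some p.1.1, some p.1.2)

theorem rt_ne_zero (p : {p : Fin d × Fin d // p.1 ≤ p.2}) : rt p ≠ 0 := by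
  unfold rt
  split_ifs with h
  · exact root_ne_zero (by simp)
  · exact root_ne_zero (by simpa using h)

theorem exists_rt {a b : Option (Fin d)} (h : a ≠ b) :
    ∃ p, root (a, b) = rt p ∨ root (a, b) = -rt p := by
  cases a with
  | none =>
    cases b with
    | none => exact absurd rfl h
    | some j => exact ⟨⟨(j, j), le_rfl⟩, Or.inr (by rw [root_swap]; simp [rt])⟩
  | some i =>
    cases b with
    | none => exact ⟨⟨(i, i), le_rfl⟩, Or.inl (by simp [rt])⟩
    | some j =>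
      have hij : i ≠ j := by simpa using h
      rcases le_total i j with h1 | h1
      · exact ⟨⟨(i, j), h1⟩, Or.inl (by simp [rt, hij])⟩
      · exact ⟨⟨(j, i), h1⟩, Or.inr (by rw [root_swap]; simp [rt, hij.symm])⟩

/-- The symmetric matrix with prescribed upper triangle. -/
def symMat : ({p : Fin d × Fin d // p.1 ≤ p.2} → ℝ) →ₗ[ℝ] Matrix (Fin d) (Fin d) ℝ where
  toFun c := Matrix.of fun i j => c ⟨(min i j, max i j), min_le_max⟩
  map_add' _ _ := rfl
  map_smul' _ _ := rfl

theorem trace_symMat_pos {c : {p : Fin d × Fin d // p.1 ≤ p.2} → ℝ} (hc : c ≠ 0) :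
    0 < (symMat c * symMat c).trace := by
  obtain ⟨p, hp⟩ := Function.ne_iff.1 hc
  have h1 : (symMat c * symMat c).trace = ∑ i, ∑ j, symMat c i j ^ 2 := by
    simp only [Matrix.trace, Matrix.diag_apply, Matrix.mul_apply]
    refine Finset.sum_congr rfl fun i _ => Finset.sum_congr rfl fun j _ => ?_
    have : symMat c j i = symMat c i j := by
      simp only [symMat, LinearMap.coe_mk, AddHom.coe_mk, Matrix.of_apply, min_comm j i,
        max_comm j i]
    rw [this, sq]
  have h2 : symMat c p.1.1 p.1.2 = c p := by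
    simp only [symMat, LinearMap.coe_mk, AddHom.coe_mk, Matrix.of_apply]
    congr 1
    apply Subtype.ext
    simp [min_eq_left p.2, max_eq_right p.2]
  rw [h1]
  refine Finset.sum_pos' (fun i _ => Finset.sum_nonneg fun j _ => sq_nonneg _)
    ⟨p.1.1, Finset.mem_univ _, Finset.sum_pos' (fun j _ => sq_nonneg _)
      ⟨p.1.2, Finset.mem_univ _, ?_⟩⟩
  rw [h2]
  have hp' : c p ≠ 0 := hp
  positivity

theorem cz_neg (z : Fin d → ℤ) : cz (-z) = -cz z := by funext i; simp [cz]

/-- At a densest lattice all roots touch (Swinnerton-Dyer's argument). -/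
theorem root_mem {K : Set (Fin d → ℝ)} (hKc : IsClosed K) (hKv : Convex ℝ K)
    (hKs : ∀ x ∈ K, -x ∈ K) {τ : ℝ}
    (hK : ∀ A : Matrix (Fin d) (Fin d) ℝ, (∀ i j, |(A - 1) i j| ≤ τ) →
      A.det ≠ 0 ∧ ∀ z, z ≠ 0 → A *ᵥ cz z ∈ K → ∃ a b, a ≠ b ∧ z = root (a, b))
    {A : Matrix (Fin d) (Fin d) ℝ} (hA : ∀ i j, |(A - 1) i j| < τ)
    (hadm : ∀ z, z ≠ 0 → A *ᵥ cz z ∉ interior K)
    (hmin : ∀ B : Matrix (Fin d) (Fin d) ℝ, B.det ≠ 0 → (∀ z, z ≠ 0 → B *ᵥ cz z ∉ interior K) →
      |A.det| ≤ |B.det|) {a b : Option (Fin d)} (hab : a ≠ b) : A *ᵥ cz (root (a, b)) ∈ K := by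
  have hint : ∀ x, -x ∈ interior K → x ∈ interior K := by
    intro x hx
    have h1 : (fun y : Fin d → ℝ => -y) ⁻¹' interior K ⊆ interior K :=
      interior_maximal (fun y hy => by simpa using hKs _ (interior_subset hy))
        (isOpen_interior.preimage continuous_neg)
    exact h1 hx
  suffices h : ∀ p, A *ᵥ cz (rt p) ∈ K by
    obtain ⟨p, hp | hp⟩ := exists_rt hab
    · rw [hp]; exact h p
    · rw [hp, cz_neg, Matrix.mulVec_neg]; exact hKs _ (h p)
  intro p₀
  by_contra hp₀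
  choose f hf using fun p => geometric_hahn_banach_open_point hKv.interior isOpen_interior
    (hadm _ (rt_ne_zero p))
  let Φ : ({p : Fin d × Fin d // p.1 ≤ p.2} → ℝ) →ₗ[ℝ] ({p // p ≠ p₀} → ℝ) :=
    { toFun := fun c p => f p.1 (symMat c *ᵥ (A *ᵥ cz (rt p.1)))
      map_add' := fun c c' => by funext p; simp [Matrix.add_mul, Matrix.add_mulVec]
      map_smul' := fun t c => by funext p; simp [Matrix.smul_mulVec] }
  have hker : LinearMap.ker Φ ≠ ⊥ := by
    apply LinearMap.ker_ne_bot_of_finrank_lt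
    rw [Module.finrank_fintype_fun_eq_card, Module.finrank_fintype_fun_eq_card]
    exact Fintype.card_subtype_lt (x := p₀) (by simp)
  obtain ⟨c, hc, hc0⟩ := Submodule.exists_mem_ne_zero_of_ne_bot hker
  set H := symMat c with hH
  have hHf : ∀ p, p ≠ p₀ → f p (H *ᵥ (A *ᵥ cz (rt p))) = 0 := fun p hp =>
    congrFun (LinearMap.mem_ker.1 hc) ⟨p, hp⟩
  have hcont : Continuous fun t : ℝ => (1 + t • H) * A :=
    (continuous_const.add (continuous_id.smul continuous_const)).matrix_mul continuous_const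
  have hA0 : A.det ≠ 0 := (hK A fun i j => (hA i j).le).1
  have hev : ∀ᶠ t in 𝓝 (0 : ℝ), 1 ≤ (1 + t • H).det := by
    have e1 : ∀ᶠ t in 𝓝 (0 : ℝ), ∀ i j, |((1 + t • H) * A - 1) i j| < τ := by
      simp only [eventually_all]
      intro i j
      exact (((hcont.sub continuous_const).matrix_elem i j).abs.continuousAt).eventually_lt
        continuousAt_const (by simpa using hA i j)
    have e2 : ∀ᶠ t in 𝓝 (0 : ℝ), ((1 + t • H) * A) *ᵥ cz (rt p₀) ∉ K := by
      have h1 : Continuous fun t : ℝ => ((1 + t • H) * A) *ᵥ cz (rt p₀) :=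
        hcont.matrix_mulVec continuous_const
      exact h1.continuousAt.eventually (hKc.isOpen_compl.mem_nhds (by simpa using hp₀))
    have e3 : ∀ᶠ t in 𝓝 (0 : ℝ), 0 < (1 + t • H).det := by
      have h1 : Continuous fun t : ℝ => (1 + t • H).det :=
        (continuous_const.add (continuous_id.smul continuous_const)).matrix_det
      exact continuousAt_const.eventually_lt h1.continuousAt (by simp)
    filter_upwards [e1, e2, e3] with t h1 h2 h3
    have h4 := hK _ fun i j => (h1 i j).le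
    have h5 : ∀ p, ((1 + t • H) * A) *ᵥ cz (rt p) ∉ interior K := by
      intro p hp
      by_cases h : p = p₀
      · subst h; exact h2 (interior_subset hp)
      · have h6 := hf p _ hp
        rw [← Matrix.mulVec_mulVec, Matrix.add_mulVec, Matrix.one_mulVec, Matrix.smul_mulVec,
          map_add, map_smul, hHf p h] at h6
        simp at h6
    have h6 := hmin _ h4.1 (by
      intro z hz hmem
      obtain ⟨a, b, hab, rfl⟩ := h4.2 z hz (interior_subset hmem)
      obtain ⟨p, hp | hp⟩ := exists_rt hab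
      · rw [hp] at hmem; exact h5 p hmem
      · rw [hp, cz_neg, Matrix.mulVec_neg] at hmem; exact h5 p (hint _ hmem))
    rw [Matrix.det_mul, abs_mul, abs_of_pos h3] at h6
    exact (le_mul_iff_one_le_left (abs_pos.2 hA0)).1 h6
  have hev' : ∀ᶠ t in 𝓝 (0 : ℝ), 1 ≤ (1 + (-t) • H).det :=
    (continuous_neg.tendsto' 0 0 neg_zero).eventually hev
  set q : Polynomial ℝ := (Matrix.det (1 + (Polynomial.X : Polynomial ℝ) •
      (-(H * H)).map Polynomial.C)).divX.divX with hq
  have hT := trace_symMat_pos hc0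
  rw [← hH] at hT
  have hev2 : ∀ᶠ t in 𝓝 (0 : ℝ), q.eval (t ^ 2) * t ^ 2 < (H * H).trace := by
    have h1 : Continuous fun t : ℝ => q.eval (t ^ 2) * t ^ 2 :=
      (q.continuous.comp (continuous_pow 2)).mul (continuous_pow 2)
    exact h1.continuousAt.eventually_lt continuousAt_const (by simpa using hT)
  have hpos : ∀ᶠ t in 𝓝[>] (0 : ℝ), 0 < t := self_mem_nhdsWithin
  obtain ⟨t, ht, h1, h2, h3⟩ :=
    (hpos.and ((hev.and (hev'.and hev2)).filter_mono nhdsWithin_le_nhds)).exists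
  have h4 : (1 + t • H) * (1 + (-t) • H) = 1 + (t ^ 2) • (-(H * H)) := by
    simp only [mul_add, add_mul, mul_one, one_mul, Matrix.smul_mul, Matrix.mul_smul, smul_smul,
      neg_smul, smul_neg, mul_neg, sq]
    abel
  have h5 := Matrix.det_one_add_smul (t ^ 2) (-(H * H))
  rw [← h4, Matrix.det_mul, ← hq, Matrix.trace_neg] at h5
  have h6 : 0 < t ^ 2 := by positivity
  nlinarith [mul_le_mul h1 h2 zero_le_one (by linarith), mul_lt_mul_of_pos_right h3 h6]

theorem root_injOn : InjOn (root (d := d)) {p | p.1 ≠ p.2} := by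
  rintro ⟨a, b⟩ hab ⟨a', b'⟩ hab' h
  simp only [mem_ofPred_eq] at hab hab'
  have h1 := W_root (a, b) a
  have h2 := W_root (a, b) b
  rw [h, W_root] at h1 h2
  simp only [if_true, hab, hab.symm, if_false] at h1 h2
  have ha : a = a' := by
    by_contra h3
    simp only [h3, if_false] at h1
    split_ifs at h1 <;> linarith
  have hb : b = b' := by
    by_contra h3
    simp only [h3, if_false] at h2
    split_ifs at h2 <;> linarith
  rw [ha, hb]

theorem ncard_offDiag :
    ({p | p.1 ≠ p.2} : Set (Option (Fin d) × Option (Fin d))).ncard = d * (d + 1) := by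
  have : ({p | p.1 ≠ p.2} : Set (Option (Fin d) × Option (Fin d))) =
      ((Finset.univ : Finset (Option (Fin d))).offDiag : Set _) := by
    ext p; simp
  rw [this, Set.ncard_coe_finset, Finset.offDiag_card]
  simp only [Finset.card_univ, Fintype.card_option, Fintype.card_fin]
  rw [Nat.sub_eq_iff_eq_add (by nlinarith)]
  ring

/-- The main statement for the doubled body `K`. -/
theorem main (d : ℕ) : ∃ δ η : ℝ, 0 < η ∧ 0 < δ ∧ δ + η ≤ 1 / 8 ∧
    ∀ K : Set (Fin d → ℝ), Sand δ η K → IsClosed K → Convex ℝ K → (∀ x ∈ K, -x ∈ K) →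
      (∃ A : Matrix (Fin d) (Fin d) ℝ, A.det ≠ 0 ∧ (∀ z, z ≠ 0 → A *ᵥ cz z ∉ interior K) ∧
        ∀ B : Matrix (Fin d) (Fin d) ℝ, B.det ≠ 0 → (∀ z, z ≠ 0 → B *ᵥ cz z ∉ interior K) →
          |A.det| ≤ |B.det|) ∧
      ∀ A : Matrix (Fin d) (Fin d) ℝ, A.det ≠ 0 → (∀ z, z ≠ 0 → A *ᵥ cz z ∉ interior K) →
        (∀ B : Matrix (Fin d) (Fin d) ℝ, B.det ≠ 0 → (∀ z, z ≠ 0 → B *ᵥ cz z ∉ interior K) →
          |A.det| ≤ |B.det|) →
        Set.ncard {v : Fin d → ℝ | v ≠ 0 ∧ v ∈ K ∧ ∃ z, v = A *ᵥ cz z} = d * (d + 1) := by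
  obtain ⟨δ, η, τ, hη, hδ, hδη, h⟩ := exists_params d
  refine ⟨δ, η, hη, hδ, hδη, fun K hK hKc hKv hKs => ?_⟩
  obtain ⟨hnear, hroot⟩ := h K hK
  have hdet1 : |((1 + η) • (1 : Matrix (Fin d) (Fin d) ℝ)).det| = (1 + η) ^ d := by
    rw [Matrix.det_smul, Matrix.det_one, mul_one, Fintype.card_fin, abs_of_pos (by positivity)]
  have hdet0 : ((1 + η) • (1 : Matrix (Fin d) (Fin d) ℝ)).det ≠ 0 := by
    rw [← abs_pos, hdet1]; positivity
  have hadm1 : ∀ z, z ≠ 0 → ((1 + η) • (1 : Matrix (Fin d) (Fin d) ℝ)) *ᵥ cz z ∉ interior K := by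
    intro z hz hmem
    have h1 := (hK.2 _ (interior_subset hmem)).1
    rw [Matrix.smul_mulVec, Matrix.one_mulVec, map_smul_eq_mul, Real.norm_of_nonneg (by positivity)]
      at h1
    have h2 := two_le_N hz
    nlinarith
  constructor
  · let F : Set (Matrix (Fin d) (Fin d) ℝ) := {A | ∀ i j, |(A - 1) i j| ≤ τ} ∩
      {A | ∀ z : Fin d → ℤ, z ≠ 0 → A *ᵥ cz z ∉ interior K}
    have hFc : IsCompact F := by
      apply IsCompact.inter_right
      · have h1 := isCompact_univ_pi (fun i : Fin d => isCompact_univ_pi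
          (fun j : Fin d => (isCompact_closedBall ((1 : Matrix (Fin d) (Fin d) ℝ) i j) τ)))
        have h2 : {A : Matrix (Fin d) (Fin d) ℝ | ∀ i j, |(A - 1) i j| ≤ τ} =
            (Set.pi univ fun i : Fin d => Set.pi univ fun j : Fin d =>
              closedBall ((1 : Matrix (Fin d) (Fin d) ℝ) i j) τ) := by
          ext A
          exact ⟨fun h i _ j _ => h i j, fun h i j => h i (mem_univ _) j (mem_univ _)⟩
        rw [h2]
        exact h1
      · simp only [ofPred_forall]
        refine isClosed_iInter fun z => isClosed_iInter fun _ => ?_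
        exact isOpen_interior.isClosed_compl.preimage
          (continuous_id.matrix_mulVec (continuous_const (y := cz z)))
    have hF : ∀ B : Matrix (Fin d) (Fin d) ℝ, B.det ≠ 0 → (∀ z, z ≠ 0 → B *ᵥ cz z ∉ interior K) →
        |B.det| ≤ (1 + η) ^ d → ∃ A ∈ F, |A.det| = |B.det| := by
      intro B hB hadm hdet
      obtain ⟨Z, hZ, hZτ⟩ := hnear B hB hadm hdet
      exact ⟨_, ⟨fun i j => (hZτ i j).le, adm_mul hadm hZ⟩, abs_det_mul B hZ⟩
    obtain ⟨A₁, hA₁, hA₁d⟩ := hF _ hdet0 hadm1 hdet1.le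
    obtain ⟨A, hAF, hAmin⟩ := hFc.exists_isMinOn ⟨_, hA₁⟩
      (f := fun A => |A.det|) (continuous_id.matrix_det.abs).continuousOn
    refine ⟨A, (hroot A hAF.1).1, hAF.2, fun B hB hadm => ?_⟩
    by_cases hdet : |B.det| ≤ (1 + η) ^ d
    · obtain ⟨A', hA', hA'd⟩ := hF B hB hadm hdet
      rw [← hA'd]; exact hAmin hA'
    · have h1 : |A.det| ≤ |A₁.det| := hAmin hA₁
      linarith [not_le.1 hdet]
  · intro B hB hadm hmin
    obtain ⟨Z, hZ, hZτ⟩ := hnear B hB hadm (hdet1 ▸ hmin _ hdet0 hadm1)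
    set A := B * Z.map (Int.cast : ℤ → ℝ) with hA
    obtain ⟨hA0, hAr⟩ := hroot A fun i j => (hZτ i j).le
    have hcz : ∀ z : Fin d → ℤ, cz z = 0 → z = 0 := by
      intro z hz
      funext i
      have := congrFun hz i
      simpa [cz] using this
    have hset : {v : Fin d → ℝ | v ≠ 0 ∧ v ∈ K ∧ ∃ z, v = B *ᵥ cz z} =
        (fun p => A *ᵥ cz (root p)) '' {p | p.1 ≠ p.2} := by
      ext v
      constructor
      · rintro ⟨hv0, hvK, z, rfl⟩
        have h1 : B *ᵥ cz z = A *ᵥ cz (Z⁻¹ *ᵥ z) := by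
          rw [hA, ← Matrix.mulVec_mulVec, map_mulVec, Matrix.mulVec_mulVec,
            Matrix.mul_nonsing_inv _ (Int.isUnit_iff_abs_eq.2 hZ), Matrix.one_mulVec]
        rw [h1] at hv0 hvK ⊢
        obtain ⟨a, b, hab, h2⟩ := hAr _ (by
          intro h0
          apply hv0
          have : cz (0 : Fin d → ℤ) = 0 := by funext i; simp
          rw [h0, this, Matrix.mulVec_zero]) hvK
        exact ⟨(a, b), hab, by rw [h2]⟩
      · rintro ⟨⟨a, b⟩, hab, rfl⟩
        refine ⟨fun h0 => root_ne_zero hab (hcz _ (Matrix.eq_zero_of_mulVec_eq_zero hA0 h0)),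
          root_mem hKc hKv hKs hroot hZτ (adm_mul hadm hZ) (fun B' hB' hadm' => ?_) hab,
          Z *ᵥ root (a, b), ?_⟩
        · rw [abs_det_mul B hZ]; exact hmin B' hB' hadm'
        · change A *ᵥ _ = _
          rw [hA, ← Matrix.mulVec_mulVec, map_mulVec]
    rw [hset, Set.InjOn.ncard_image, ncard_offDiag]
    intro p hp p' hp' hpp
    apply root_injOn hp hp'
    have h1 : A *ᵥ (cz (root p) - cz (root p')) = 0 := by
      rw [Matrix.mulVec_sub]; exact sub_eq_zero.2 hpp
    have h2 := Matrix.eq_zero_of_mulVec_eq_zero hA0 h1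
    have h3 : cz (root p - root p') = 0 := by
      rw [← h2]; funext i; simp [cz]
    exact sub_eq_zero.1 (hcz _ h3)

end Pool.Agent.P.MP_73fc50_co.G
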