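import Mathlib
import Pool.Agent.P.MP_73fc50_co.Baire
import Pool.Agent.P.MP_73fc50_co.G.Exact
import Pool.Agent.P.MP_73fc50_co.G.Defs

/-!
Translation between admissible lattices of `2 C` and the density `δ(C,L)`, and the shaved cell.
-/

set_option autoImplicit false

open Set Metric Topology Matrix Filter MeasureTheory
open scoped Pointwise

namespace Pool.Agent.P.MP_73fc50_co.G

variable {d : ℕ}

theorem cz_eq_zero {z : Fin d → ℤ} (hz : cz z = 0) : z = 0 := by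
  funext i
  have := congrFun hz i
  simpa [cz] using this

theorem cz_zero : cz (0 : Fin d → ℤ) = 0 := by funext i; simp

section Translate

variable {C : Set (Fin d → ℝ)}

theorem gauge_two (x : Fin d → ℝ) : gauge ((2 : ℝ) • C) x = gauge C x / 2 := by
  rw [gauge_smul_left_of_nonneg (by norm_num : (0 : ℝ) ≤ 2)]
  simp only [Pi.smul_apply, smul_eq_mul]
  ring

theorem lam_nonneg (B : Matrix (Fin d) (Fin d) ℝ) : 0 ≤ lam C B :=
  Real.sInf_nonneg (by rintro _ ⟨x, -, rfl⟩; exact gauge_nonneg x)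

theorem lam_le {B : Matrix (Fin d) (Fin d) ℝ} (hB : B.det ≠ 0) {z : Fin d → ℤ} (hz : z ≠ 0) :
    lam C B ≤ gauge C (B *ᵥ cz z) :=
  csInf_le ⟨0, by rintro _ ⟨x, -, rfl⟩; exact gauge_nonneg x⟩
    ⟨_, ⟨⟨z, rfl⟩, fun h => hz (cz_eq_zero (Matrix.eq_zero_of_mulVec_eq_zero hB h))⟩, rfl⟩

theorem le_lam (hd : 1 ≤ d) {B : Matrix (Fin d) (Fin d) ℝ} (hB : B.det ≠ 0) {c : ℝ}
    (h : ∀ z, z ≠ 0 → c ≤ gauge C (B *ᵥ cz z)) : c ≤ lam C B := by
  apply le_csInf
  · have hz : (fun _ => 1 : Fin d → ℤ) ≠ 0 := fun h0 => by simpa using congrFun h0 ⟨0, hd⟩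
    exact ⟨_, _, ⟨⟨fun _ => 1, rfl⟩,
      fun h => hz (cz_eq_zero (Matrix.eq_zero_of_mulVec_eq_zero hB h))⟩, rfl⟩
  · rintro _ ⟨_, ⟨⟨z, rfl⟩, h0⟩, rfl⟩
    apply h z
    rintro rfl
    apply h0
    change B *ᵥ cz 0 = 0
    rw [cz_zero, Matrix.mulVec_zero]

theorem translate (hd : 1 ≤ d) (hc : IsCompact C) (hv : Convex ℝ C)
    (h0 : (2 : ℝ) • C ∈ 𝓝 (0 : Fin d → ℝ)) {n : ℕ}
    (hex : ∃ A : Matrix (Fin d) (Fin d) ℝ, A.det ≠ 0 ∧
      (∀ z, z ≠ 0 → A *ᵥ cz z ∉ interior ((2 : ℝ) • C)) ∧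
        ∀ B : Matrix (Fin d) (Fin d) ℝ, B.det ≠ 0 →
          (∀ z, z ≠ 0 → B *ᵥ cz z ∉ interior ((2 : ℝ) • C)) → |A.det| ≤ |B.det|)
    (hall : ∀ A : Matrix (Fin d) (Fin d) ℝ, A.det ≠ 0 →
      (∀ z, z ≠ 0 → A *ᵥ cz z ∉ interior ((2 : ℝ) • C)) →
        (∀ B : Matrix (Fin d) (Fin d) ℝ, B.det ≠ 0 →
          (∀ z, z ≠ 0 → B *ᵥ cz z ∉ interior ((2 : ℝ) • C)) → |A.det| ≤ |B.det|) →
        Set.ncard {v : Fin d → ℝ | v ≠ 0 ∧ v ∈ (2 : ℝ) • C ∧ ∃ z, v = A *ᵥ cz z} = n) :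
    (∃ A, IsDensest C A) ∧ ∀ A, IsDensest C A → kiss C A = n := by
  have hv2 : Convex ℝ ((2 : ℝ) • C) := hv.smul 2
  have hc2 : IsClosed ((2 : ℝ) • C) := (hc.smul 2).isClosed
  have hint : ∀ x, x ∉ interior ((2 : ℝ) • C) ↔ 2 ≤ gauge C x := by
    intro x
    rw [← gauge_lt_one_iff_mem_interior hv2 h0, gauge_two, not_lt]
    constructor <;> intro h <;> linarith
  have hmem : ∀ x, x ∈ (2 : ℝ) • C ↔ gauge C x ≤ 2 := by
    intro x
    rw [← hc2.closure_eq, ← gauge_le_one_iff_mem_closure hv2 h0, gauge_two]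
    constructor <;> intro h <;> linarith
  set v := (volume C).toReal with hvdef
  have hvpos : 0 < v := by
    refine ENNReal.toReal_pos ?_ hc.measure_lt_top.ne
    intro h
    have h1 : volume ((2 : ℝ) • C) = 0 := by rw [Measure.addHaar_smul, h, mul_zero]
    exact (Measure.measure_pos_of_mem_nhds volume h0).ne' h1
  have hlow : ∀ B : Matrix (Fin d) (Fin d) ℝ, B.det ≠ 0 →
      (∀ z, z ≠ 0 → B *ᵥ cz z ∉ interior ((2 : ℝ) • C)) → v / |B.det| ≤ dens C B := by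
    intro B hB hadm
    have h1 : 2 ≤ lam C B := le_lam hd hB fun z hz => (hint _).1 (hadm z hz)
    have h2 : 0 < |B.det| := abs_pos.2 hB
    have h3 : (2 : ℝ) ^ d ≤ lam C B ^ d := by gcongr
    rw [dens, ← hvdef, div_le_div_iff₀ h2 (by positivity)]
    calc v * (2 ^ d * |B.det|) = 2 ^ d * (v * |B.det|) := by ring
      _ ≤ lam C B ^ d * (v * |B.det|) := by gcongr
      _ = _ := by ring
  have hscale : ∀ B : Matrix (Fin d) (Fin d) ℝ, B.det ≠ 0 → 0 < lam C B →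
      ((2 / lam C B) • B).det ≠ 0 ∧
      (∀ z, z ≠ 0 → ((2 / lam C B) • B) *ᵥ cz z ∉ interior ((2 : ℝ) • C)) ∧
      dens C B = v / |((2 / lam C B) • B).det| := by
    intro B hB hl
    have h2 : 0 < |B.det| := abs_pos.2 hB
    refine ⟨?_, fun z hz => ?_, ?_⟩
    · rw [Matrix.det_smul]; positivity
    · rw [hint, Matrix.smul_mulVec, gauge_smul_of_nonneg (by positivity), smul_eq_mul,
        div_mul_eq_mul_div, le_div_iff₀ hl]
      linarith [lam_le (C := C) hB hz]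
    · rw [Matrix.det_smul, Fintype.card_fin, abs_mul, abs_of_pos (by positivity), dens, ← hvdef,
        div_pow]
      field_simp
  have hzero : ∀ B : Matrix (Fin d) (Fin d) ℝ, ¬ 0 < lam C B → dens C B = 0 := by
    intro B hl
    have : lam C B = 0 := le_antisymm (not_lt.1 hl) (lam_nonneg B)
    rw [dens, this, zero_pow (by omega), zero_mul, zero_div]
  obtain ⟨A₀, hA₀, hadm₀, hmin₀⟩ := hex
  have hpos₀ : 0 < dens C A₀ := lt_of_lt_of_le (by positivity) (hlow A₀ hA₀ hadm₀)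
  refine ⟨⟨A₀, hA₀, fun B hB => ?_⟩, fun A ⟨hA, hmax⟩ => ?_⟩
  · by_cases hl : 0 < lam C B
    · obtain ⟨h1, h2, h3⟩ := hscale B hB hl
      rw [h3]
      refine le_trans ?_ (hlow A₀ hA₀ hadm₀)
      exact div_le_div_of_nonneg_left hvpos.le (abs_pos.2 hA₀) (hmin₀ _ h1 h2)
    · rw [hzero B hl]; exact hpos₀.le
  · have hl : 0 < lam C A := by
      by_contra hl
      have := hmax A₀ hA₀
      rw [hzero A hl] at this
      linarith
    obtain ⟨h1, h2, h3⟩ := hscale A hA hl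
    have h4 := hall _ h1 h2 (by
      intro B hB hadm
      have h5 := (hlow B hB hadm).trans (hmax B hB)
      rw [h3] at h5
      exact (div_le_div_iff_of_pos_left hvpos (abs_pos.2 hB) (abs_pos.2 h1)).1 h5)
    have hc0 : 0 < 2 / lam C A := by positivity
    rw [← h4, kiss, ← Set.ncard_image_of_injective _ (smul_right_injective (Fin d → ℝ) hc0.ne')]
    congr 1
    ext x
    constructor
    · rintro ⟨_, ⟨⟨z, rfl⟩, hg⟩, rfl⟩
      have h5 : gauge C ((2 / lam C A) • (A *ᵥ cz z)) = 2 := by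
        rw [gauge_smul_of_nonneg hc0.le, smul_eq_mul]
        erw [hg]
        field_simp
      refine ⟨fun h => ?_, (hmem _).2 h5.le, z, (Matrix.smul_mulVec _ _ _).symm⟩
      have h6 : (2 / lam C A) • (A *ᵥ cz z) = 0 := h
      rw [h6, gauge_zero] at h5
      norm_num at h5
    · rintro ⟨hx0, hxK, z, rfl⟩
      have hz : z ≠ 0 := by
        rintro rfl
        exact hx0 (by rw [cz_zero, Matrix.mulVec_zero])
      refine ⟨A *ᵥ cz z, ⟨⟨z, rfl⟩, le_antisymm ?_ (lam_le hA hz)⟩,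
        (Matrix.smul_mulVec _ _ _).symm⟩
      have h5 := (hmem _).1 hxK
      rw [Matrix.smul_mulVec, gauge_smul_of_nonneg hc0.le, smul_eq_mul, div_mul_eq_mul_div,
        div_le_iff₀ hl] at h5
      linarith

end Translate

/-- The shaved Voronoi cell of `A_d`. -/
noncomputable def cell (d : ℕ) (δ : ℝ) (hδ : δ ≤ 2) : ConvexBody (Fin d → ℝ) where
  carrier := {x | N x ≤ 1 ∧ N3 x ≤ 2 - δ}
  convex' := by
    have h1 := (N (d := d)).convexOn.convex_le 1
    have h2 := (N3 (d := d)).convexOn.convex_le (2 - δ)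
    simpa [Set.inter_def] using h1.inter h2
  isCompact' := by
    apply Metric.isCompact_of_isClosed_isBounded
      ((isClosed_le continuous_N continuous_const).inter (isClosed_le continuous_N3 continuous_const))
    refine (Metric.isBounded_closedBall (x := 0) (r := 1)).subset fun x hx => ?_
    rw [mem_closedBall_zero_iff]
    exact (norm_le_N x).trans hx.1
  nonempty' := ⟨0, by simp [hδ]⟩

theorem sand_of_dist {δ η : ℝ} (hη : 0 < η) (hδ : δ ≤ 2) (C : ConvexBody (Fin d → ℝ))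
    (hC : dist C (cell d δ hδ) < η / (8 * (d + 1))) :
    Sand δ η ((2 : ℝ) • (C : Set (Fin d → ℝ))) := by
  set ε : ℝ := η / (8 * (d + 1)) with hε
  have hεη : 2 * (d + 1) * ε = η / 4 := by rw [hε]; field_simp; ring
  have hd : (0 : ℝ) ≤ 2 * (d + 1) := by positivity
  constructor
  · intro x h1 h2
    refine interior_maximal (t := {x | N x < 2 - η ∧ N3 x < 4 - 2 * δ - 2 * η}) ?_
      ((isOpen_lt continuous_N continuous_const).inter (isOpen_lt continuous_N3 continuous_const))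
      ⟨h1, h2⟩
    rintro x ⟨h1, h2⟩
    refine ⟨(1 / 2 : ℝ) • x, mem_of_closedBall_subset C _ hC fun y hy => ?_, by simp [smul_smul]⟩
    rw [mem_closedBall, dist_eq_norm] at hy
    have h3 : N (y - (1 / 2 : ℝ) • x) ≤ η / 2 := by
      refine (N_le_norm _).trans ?_
      calc _ ≤ 2 * (d + 1) * (2 * ε) := by gcongr
        _ = η / 2 := by linarith
    have h4 := N3_le_N (y - (1 / 2 : ℝ) • x)
    have h5 := map_add_le_add N ((1 / 2 : ℝ) • x) (y - (1 / 2 : ℝ) • x)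
    have h6 := map_add_le_add N3 ((1 / 2 : ℝ) • x) (y - (1 / 2 : ℝ) • x)
    rw [add_sub_cancel, map_smul_eq_mul, Real.norm_of_nonneg (by norm_num)] at h5 h6
    exact ⟨by linarith, by linarith⟩
  · rintro _ ⟨y, hy, rfl⟩
    obtain ⟨y₀, hy₀, hyy⟩ := exists_dist_lt_of_hausdorffDist_lt hy
      (show hausdorffDist (C : Set (Fin d → ℝ)) (cell d δ hδ : Set (Fin d → ℝ)) < ε from hC)
      ConvexBody.hausdorffEDist_ne_top
    rw [dist_eq_norm] at hyy
    have h3 : N (y - y₀) ≤ η / 4 := by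
      refine (N_le_norm _).trans ?_
      calc _ ≤ 2 * (d + 1) * ε := by gcongr
        _ = η / 4 := hεη
    have h4 := N3_le_N (y - y₀)
    have h5 := map_add_le_add N y₀ (y - y₀)
    have h6 := map_add_le_add N3 y₀ (y - y₀)
    rw [add_sub_cancel] at h5 h6
    obtain ⟨h7, h8⟩ : N y₀ ≤ 1 ∧ N3 y₀ ≤ 2 - δ := hy₀
    beta_reduce
    rw [map_smul_eq_mul, map_smul_eq_mul, Real.norm_of_nonneg (by norm_num)]
    exact ⟨by linarith, by linarith⟩

theorem final (hd : 1 ≤ d) : ∃ (C₀ : ConvexBody (Fin d → ℝ)) (ε : ℝ), 0 < ε ∧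
    (∀ x ∈ (C₀ : Set (Fin d → ℝ)), -x ∈ (C₀ : Set (Fin d → ℝ))) ∧
    ∀ C : ConvexBody (Fin d → ℝ), dist C C₀ < ε → (interior (C : Set (Fin d → ℝ))).Nonempty ∧
      ((∀ x ∈ (C : Set (Fin d → ℝ)), -x ∈ (C : Set (Fin d → ℝ))) →
        (∃ A, IsDensest (C : Set (Fin d → ℝ)) A) ∧
          ∀ A, IsDensest (C : Set (Fin d → ℝ)) A → kiss (C : Set (Fin d → ℝ)) A = d * (d + 1)) := by
  obtain ⟨δ, η, hη, hδ, hδη, h⟩ := main d
  have hδ2 : δ ≤ 2 := by linarith
  refine ⟨cell d δ hδ2, η / (8 * (d + 1)), by positivity, fun x hx => ?_, fun C hC => ?_⟩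
  · change N (-x) ≤ 1 ∧ N3 (-x) ≤ 2 - δ
    rw [map_neg_eq_map, map_neg_eq_map]
    exact hx
  have hS := sand_of_dist hη hδ2 C hC
  have h0 : (2 : ℝ) • (C : Set (Fin d → ℝ)) ∈ 𝓝 (0 : Fin d → ℝ) :=
    mem_interior_iff_mem_nhds.1 (hS.1 0 (by rw [map_zero]; linarith) (by rw [map_zero]; linarith))
  refine ⟨?_, fun hs => ?_⟩
  · have h1 := mem_interior_iff_mem_nhds.2 h0
    rw [interior_smul₀ (by norm_num : (2 : ℝ) ≠ 0)] at h1
    obtain ⟨y, hy, -⟩ := h1
    exact ⟨y, hy⟩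
  · obtain ⟨h1, h2⟩ := h _ hS (C.isCompact.smul 2).isClosed (C.convex.smul 2) (by
      rintro _ ⟨y, hy, rfl⟩
      exact ⟨-y, hs y hy, by simp⟩)
    exact translate hd C.isCompact C.convex h0 h1 h2

end Pool.Agent.P.MP_73fc50_co.G
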